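import Mathlib

/-!
# A rank condenser

For `c` outside a finite set the map `u ↦ (∑ i, u i * ((b + 1) * c) ^ i)_b`, `b ≤ r`, is injective
on a given subspace of dimension at most `r + 1`.

The two lemmas on generalised Vandermonde determinants follow the file of helper51
(`Pool/Agent/V8H51/PIT/Core`).
-/

namespace Pool.Agent.V8H75.Acit

open Polynomial

theorem signVar_lt_card (P : ℝ[X]) (hP : P ≠ 0) : P.signVariations < P.support.card := by
  induction hn : P.support.card generalizing P with
  | zero =>
    rw [Finset.card_eq_zero, Polynomial.support_eq_empty] at hn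
    exact absurd hn hP
  | succ n ih =>
    have h1 := Polynomial.signVariations_le_eraseLead_succ (P := P)
    have h2 : P.eraseLead.support.card = n := by
      exact Polynomial.card_support_eraseLead' hn
    by_cases h3 : P.eraseLead = 0
    · have h4 : P.signVariations = 0 := by
        have h5 := Polynomial.eraseLead_add_monomial_natDegree_leadingCoeff P
        rw [h3, zero_add] at h5
        rw [← h5]
        exact Polynomial.signVariations_monomial _ _
      omega
    · have := ih P.eraseLead h3 h2
      omega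

theorem gen_vandermonde {k : ℕ} (α : Fin k → ℕ) (hα : Function.Injective α) (hpos : ∀ i, 0 < α i)
    (μ : Fin k → ℕ) (hμ : Function.Injective μ) :
    (Matrix.of fun i j => ((α i : ℝ)) ^ (μ j)).det ≠ 0 := by
  intro h
  obtain ⟨c, hc0, hc⟩ := Matrix.exists_mulVec_eq_zero_iff.2 h
  let P : ℝ[X] := ∑ j, Polynomial.monomial (μ j) (c j)
  have hcoef : ∀ j, P.coeff (μ j) = c j := by
    intro j
    simp only [P, Polynomial.finsetSum_coeff, Polynomial.coeff_monomial]
    rw [Finset.sum_eq_single j]
    · simp
    · intro b _ hb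
      rw [if_neg fun h => hb (hμ h)]
    · intro h; exact absurd (Finset.mem_univ _) h
  have hP : P ≠ 0 := by
    intro h0
    apply hc0
    funext j
    rw [← hcoef j, h0, Polynomial.coeff_zero]; rfl
  have hcard : P.support.card ≤ k := by
    have : P.support ⊆ Finset.univ.image μ := by
      intro m hm
      rw [Polynomial.mem_support_iff] at hm
      by_contra hcon
      apply hm
      simp only [P, Polynomial.finsetSum_coeff, Polynomial.coeff_monomial]
      apply Finset.sum_eq_zero
      intro j _
      rw [if_neg]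
      intro h
      exact hcon (Finset.mem_image.2 ⟨j, Finset.mem_univ _, h⟩)
    calc P.support.card ≤ (Finset.univ.image μ).card := Finset.card_le_card this
      _ ≤ (Finset.univ : Finset (Fin k)).card := Finset.card_image_le
      _ = k := by simp
  have hroot : ∀ i, P.eval (α i : ℝ) = 0 := by
    intro i
    have h1 := congrFun hc i
    simp only [Matrix.mulVec, dotProduct, Matrix.of_apply, Pi.zero_apply] at h1
    simp only [P, Polynomial.eval_finsetSum, Polynomial.eval_monomial]
    rw [← h1]
    exact Finset.sum_congr rfl fun j _ => mul_comm _ _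
  have hcount : k ≤ P.roots.countP (0 < ·) := by
    have h1 : (Finset.univ.image fun i => (α i : ℝ)).val ≤ P.roots.filter (0 < ·) := by
      rw [Multiset.le_iff_subset (Finset.nodup _)]
      intro x hx
      have hx' : x ∈ (Finset.univ.image fun i => (α i : ℝ)) := hx
      obtain ⟨i, -, rfl⟩ := Finset.mem_image.1 hx'
      rw [Multiset.mem_filter, Polynomial.mem_roots hP]
      exact ⟨hroot i, by exact_mod_cast hpos i⟩
    have h2 := Multiset.card_le_card h1
    rw [← Multiset.countP_eq_card_filter] at h2
    have h3 : (Finset.univ.image fun i => (α i : ℝ)).card = k := by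
      rw [Finset.card_image_of_injective _ (fun a b hab => hα (by exact_mod_cast hab))]
      simp
    calc k = (Finset.univ.image fun i => (α i : ℝ)).card := h3.symm
      _ ≤ _ := h2
  have h5 := Polynomial.roots_countP_pos_le_signVariations (P := P)
  have h6 := signVar_lt_card P hP
  omega

theorem det_cast {L : Type*} [CommRing L] {k : ℕ} (α : Fin k → ℕ) (μ : Fin k → ℕ) :
    (Matrix.of fun i j => ((α i : L)) ^ (μ j)).det =
      (((Matrix.of fun i j => ((α i : ℤ)) ^ (μ j)).det : ℤ) : L) := by
  have h3 := RingHom.map_det (Int.castRingHom L) (Matrix.of fun i j => ((α i : ℤ)) ^ (μ j))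
  rw [eq_comm]
  refine h3.trans ?_
  congr 1
  ext i j
  simp

variable {K : Type*} [Field K] [CharZero K]

theorem gen_vandermonde' {k : ℕ} (α : Fin k → ℕ) (hα : Function.Injective α)
    (hpos : ∀ i, 0 < α i) (μ : Fin k → ℕ) (hμ : Function.Injective μ) :
    (Matrix.of fun i j => ((α i : K)) ^ (μ j)).det ≠ 0 := by
  have h1 := gen_vandermonde α hα hpos μ hμ
  rw [det_cast] at h1 ⊢
  exact_mod_cast h1

/-- A space of polynomials of dimension `p` has elements of `p` different degrees. -/
theorem exists_degrees (W : Submodule K K[X]) [FiniteDimensional K W] :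
    ∃ μ : Fin (Module.finrank K W) → ℕ, Function.Injective μ ∧
      ∀ j, ∃ f ∈ W, f ≠ 0 ∧ f.natDegree = μ j := by
  classical
  -- the degrees are bounded
  obtain ⟨n, hn⟩ : ∃ n : ℕ, ∀ f ∈ W, f.natDegree < n := by
    let b := Module.finBasis K W
    refine ⟨(∑ i, ((b i : W) : K[X]).natDegree) + 1, fun f hf => ?_⟩
    have h1 := b.sum_repr ⟨f, hf⟩
    have h2 : f = ∑ i, (b.repr ⟨f, hf⟩ i) • ((b i : W) : K[X]) := by
      have h3 := congrArg W.subtype h1
      rw [map_sum] at h3
      simp only [map_smul, Submodule.subtype_apply] at h3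
      exact h3.symm
    rw [h2, Nat.lt_succ_iff]
    refine natDegree_sum_le_of_forall_le _ _ fun i _ => ?_
    refine (natDegree_smul_le _ _).trans ?_
    exact Finset.single_le_sum (f := fun i => ((b i : W) : K[X]).natDegree)
      (fun _ _ => Nat.zero_le _) (Finset.mem_univ i)
  let D : Finset ℕ := (Finset.range n).filter fun d => ∃ f ∈ W, f ≠ 0 ∧ f.natDegree = d
  have hD : ∀ f ∈ W, f ≠ 0 → f.natDegree ∈ D := fun f hf h0 =>
    Finset.mem_filter.2 ⟨Finset.mem_range.2 (hn f hf), f, hf, h0, rfl⟩
  let ev : W →ₗ[K] (↥D → K) := LinearMap.pi fun d => (lcoeff K (d : ℕ)) ∘ₗ W.subtype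
  have hev : Function.Injective ev := by
    rw [injective_iff_map_eq_zero]
    rintro ⟨f, hf⟩ h
    by_contra h0
    have hf0 : f ≠ 0 := fun h1 => h0 (Subtype.ext h1)
    have h2 := congrFun h ⟨f.natDegree, hD f hf hf0⟩
    have h3 : f.coeff f.natDegree = 0 := h2
    rw [coeff_natDegree, leadingCoeff_eq_zero] at h3
    exact hf0 h3
  have h1 := LinearMap.finrank_le_finrank_of_injective hev
  rw [Module.finrank_fintype_fun_eq_card, Fintype.card_coe] at h1
  let eD := D.equivFin.symm
  refine ⟨fun j => (eD (Fin.castLE h1 j) : ℕ), ?_, ?_⟩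
  · intro a b hab
    have h2 := eD.injective (Subtype.ext hab)
    exact Fin.castLE_injective h1 h2
  · intro j
    exact (Finset.mem_filter.1 (eD (Fin.castLE h1 j)).2).2

/-- The determinant of the values `α_a ((b + 1) X)` is not zero for linearly independent
polynomials `α_a`. -/
theorem det_comp_ne_zero {p : ℕ} (α : Fin p → K[X]) (hα : LinearIndependent K α) :
    (Matrix.of fun a b : Fin p => (α a).comp (C (((b : ℕ) + 1 : ℕ) : K) * X)).det ≠ 0 := by
  classical
  intro hdet
  obtain ⟨g, hg0, hg⟩ := Matrix.exists_mulVec_eq_zero_iff.mpr hdet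
  let W : Submodule K K[X] := Submodule.span K (Set.range α)
  have hW : ∀ f ∈ W, ∑ b : Fin p, f.comp (C (((b : ℕ) + 1 : ℕ) : K) * X) * g b = 0 := by
    intro f hf
    induction hf using Submodule.span_induction with
    | mem x hx =>
      obtain ⟨a, rfl⟩ := hx
      have h1 := congrFun hg a
      simpa [Matrix.mulVec, dotProduct] using h1
    | zero => simp
    | add x y _ _ hx hy =>
      simp only [add_comp, add_mul, Finset.sum_add_distrib, hx, hy, add_zero]
    | smul k x _ hx =>
      simp only [smul_comp, smul_mul_assoc, ← Finset.smul_sum, hx, smul_zero]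
  have hfin : FiniteDimensional K W := FiniteDimensional.span_of_finite K (Set.finite_range α)
  have hrank : Module.finrank K W = p := by
    have := finrank_span_eq_card hα
    rwa [Fintype.card_fin] at this
  obtain ⟨μ', hμ'inj, hμ'⟩ := exists_degrees W
  obtain ⟨μ, hμinj, hμ⟩ : ∃ μ : Fin p → ℕ, Function.Injective μ ∧
      ∀ j, ∃ f ∈ W, f ≠ 0 ∧ f.natDegree = μ j :=
    ⟨fun j => μ' (Fin.cast hrank.symm j), fun a b hab => by
      have := hμ'inj hab
      exact Fin.cast_injective _ this, fun j => hμ' _⟩
  obtain ⟨b0, hb0⟩ : ∃ b, g b ≠ 0 := by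
    by_contra h
    push Not at h
    exact hg0 (funext h)
  obtain ⟨b1, hb1, hmax⟩ := Finset.exists_max_image
    (Finset.univ.filter fun b => g b ≠ 0) (fun b => (g b).natDegree) ⟨b0, by simp [hb0]⟩
  let N := (g b1).natDegree
  have hdegg : ∀ b, (g b).natDegree ≤ N := by
    intro b
    by_cases h : g b = 0
    · simp [h]
    · exact hmax b (by simp [h])
  have key : ∀ j, ∑ b : Fin p, (((b : ℕ) + 1 : ℕ) : K) ^ μ j * (g b).coeff N = 0 := by
    intro j
    obtain ⟨f, hf, hf0, hfd⟩ := hμ j
    have h1 := congrArg (fun q => q.coeff (μ j + N)) (hW f hf)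
    simp only [finsetSum_coeff, coeff_zero] at h1
    have h2 : ∀ b : Fin p, (f.comp (C (((b : ℕ) + 1 : ℕ) : K) * X) * g b).coeff (μ j + N) =
        f.leadingCoeff * ((((b : ℕ) + 1 : ℕ) : K) ^ μ j * (g b).coeff N) := by
      intro b
      rw [coeff_mul_add_eq_of_natDegree_le _ (hdegg b)]
      · rw [comp_C_mul_X_coeff, ← hfd, coeff_natDegree]
        ring
      · rw [natDegree_comp, hfd]
        exact (Nat.mul_le_mul_left _ ((natDegree_C_mul_le _ _).trans natDegree_X_le)).trans
          (mul_one _).le
    simp only [h2, ← Finset.mul_sum] at h1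
    exact (mul_eq_zero.1 h1).resolve_left (leadingCoeff_ne_zero.2 hf0)
  have hvan := gen_vandermonde' (K := K) (fun b : Fin p => (b : ℕ) + 1)
    (fun a b hab => Fin.ext (by simpa using hab)) (fun b => Nat.succ_pos _) μ hμinj
  apply hvan
  refine Matrix.exists_vecMul_eq_zero_iff.mp ⟨fun b => (g b).coeff N, ?_, ?_⟩
  · intro h
    have h1 := congrFun h b1
    simp only [Pi.zero_apply] at h1
    have h2 : (g b1).coeff (g b1).natDegree = 0 := h1
    rw [coeff_natDegree, leadingCoeff_eq_zero] at h2
    exact (Finset.mem_filter.1 hb1).2 h2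
  · funext j
    simp only [Matrix.vecMul, dotProduct, Matrix.of_apply, Pi.zero_apply]
    rw [← key j]
    exact Finset.sum_congr rfl fun b _ => mul_comm _ _

/-- The condenser. -/
def cond (n r : ℕ) (c : K) : (Fin (n + 1) → K) →ₗ[K] (Fin (r + 1) → K) :=
  Matrix.mulVecLin (Matrix.of fun (b : Fin (r + 1)) (i : Fin (n + 1)) =>
    ((((b : ℕ) + 1 : ℕ) : K) * c) ^ (i : ℕ))

omit [CharZero K] in
theorem cond_apply (n r : ℕ) (c : K) (u : Fin (n + 1) → K) (b : Fin (r + 1)) :
    cond n r c u b = ∑ i : Fin (n + 1), ((((b : ℕ) + 1 : ℕ) : K) * c) ^ (i : ℕ) * u i := rfl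

theorem exists_bad (n r : ℕ) (W : Submodule K (Fin (n + 1) → K))
    (hW : Module.finrank K W ≤ r + 1) :
    ∃ B : Finset K, ∀ c ∉ B, ∀ x ∈ W, cond n r c x = 0 → x = 0 := by
  classical
  let p := Module.finrank K W
  let w := Module.finBasis K W
  let α : Fin p → K[X] := fun a => ∑ i : Fin (n + 1), monomial (i : ℕ) ((w a : Fin (n + 1) → K) i)
  have hcoef : ∀ a (i : Fin (n + 1)), (α a).coeff (i : ℕ) = (w a : Fin (n + 1) → K) i := by
    intro a i
    simp only [α, finsetSum_coeff, coeff_monomial]
    rw [Finset.sum_eq_single i]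
    · simp
    · intro j _ hj
      rw [if_neg]
      intro h
      exact hj (Fin.ext h)
    · intro h
      exact absurd (Finset.mem_univ _) h
  have hα : LinearIndependent K α := by
    rw [Fintype.linearIndependent_iff]
    intro g hg
    have h1 : ∑ a, g a • w a = 0 := by
      apply Subtype.ext
      funext i
      have h2 := congrArg (fun q => q.coeff (i : ℕ)) hg
      simp only [finsetSum_coeff, coeff_smul, hcoef, coeff_zero] at h2
      simpa [Finset.sum_apply] using h2
    exact Fintype.linearIndependent_iff.1 w.linearIndependent g h1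
  have hdet := det_comp_ne_zero α hα
  refine ⟨(Matrix.of fun a b : Fin p =>
    (α a).comp (C (((b : ℕ) + 1 : ℕ) : K) * X)).det.roots.toFinset, fun c hc x hx h0 => ?_⟩
  have hdc : (Matrix.of fun a b : Fin p => (α a).eval ((((b : ℕ) + 1 : ℕ) : K) * c)).det ≠ 0 := by
    intro h1
    apply hc
    rw [Multiset.mem_toFinset, mem_roots hdet, IsRoot.def]
    have h2 := RingHom.map_det (evalRingHom c) (Matrix.of fun a b : Fin p =>
      (α a).comp (C (((b : ℕ) + 1 : ℕ) : K) * X))
    rw [coe_evalRingHom] at h2
    rw [h2, ← h1]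
    congr 1
    ext a b
    simp [eval_comp]
  have h1 : ∀ b : Fin p, ∑ a, (w.repr ⟨x, hx⟩ a) * (α a).eval ((((b : ℕ) + 1 : ℕ) : K) * c) = 0 := by
    intro b
    have h2 : (b : ℕ) < r + 1 := b.2.trans_le hW
    have h3 := congrFun h0 ⟨b, h2⟩
    rw [cond_apply, Pi.zero_apply] at h3
    rw [← h3]
    have h4 : x = ∑ a, (w.repr ⟨x, hx⟩ a) • (w a : Fin (n + 1) → K) := by
      have h5 := congrArg W.subtype (w.sum_repr ⟨x, hx⟩)
      rw [map_sum] at h5
      simp only [map_smul, Submodule.subtype_apply] at h5
      exact h5.symm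
    have h5 : ∀ i, x i = ∑ a, (w.repr ⟨x, hx⟩ a) * (w a : Fin (n + 1) → K) i := by
      intro i
      conv_lhs => rw [h4]
      simp [Finset.sum_apply]
    simp_rw [h5, Finset.mul_sum]
    rw [Finset.sum_comm]
    refine Finset.sum_congr rfl fun a _ => ?_
    simp only [α, eval_finsetSum, eval_monomial, Finset.mul_sum]
    refine Finset.sum_congr rfl fun i _ => ?_
    push_cast
    ring
  have h2 : (w.repr ⟨x, hx⟩ : Fin p → K) = 0 := by
    by_contra hne
    apply hdc
    refine Matrix.exists_vecMul_eq_zero_iff.mp ⟨_, hne, ?_⟩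
    funext b
    simp only [Matrix.vecMul, dotProduct, Matrix.of_apply, Pi.zero_apply]
    exact h1 b
  have h3 : w.repr ⟨x, hx⟩ = 0 := by
    ext a
    exact congrFun h2 a
  have h4 : (⟨x, hx⟩ : W) = 0 := by
    rw [← w.repr.map_eq_zero_iff]
    exact h3
  exact congrArg Subtype.val h4

end Pool.Agent.V8H75.Acit
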