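import Mathlib

/-!
# Valuations which separate the monomials in algebraically independent elements
-/

namespace Pool.Agent.V8H75.Acit

variable {K E : Type*} [Field K] [Field E] [Algebra K E]

/-- A `K`-subspace which is closed under products and does not contain `1` lies in the maximal
ideal of a valuation ring containing `K`. -/
theorem exists_val (W : Submodule K E) (hmul : ∀ x ∈ W, ∀ y ∈ W, x * y ∈ W) (h1 : (1 : E) ∉ W) :
    ∃ B : ValuationSubring E, (∀ k : K, algebraMap K E k ∈ B) ∧ ∀ x ∈ W, B.valuation x < 1 := by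
  let A : Subring E :=
    { carrier := {x | ∃ k : K, ∃ w ∈ W, x = algebraMap K E k + w}
      mul_mem' := by
        rintro x y ⟨k, w, hw, rfl⟩ ⟨k', w', hw', rfl⟩
        refine ⟨k * k', k • w' + k' • w + w * w',
          W.add_mem (W.add_mem (W.smul_mem _ hw') (W.smul_mem _ hw)) (hmul _ hw _ hw'), ?_⟩
        rw [Algebra.smul_def, Algebra.smul_def, map_mul]
        ring
      one_mem' := ⟨1, 0, W.zero_mem, by simp⟩
      add_mem' := by
        rintro x y ⟨k, w, hw, rfl⟩ ⟨k', w', hw', rfl⟩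
        exact ⟨k + k', w + w', W.add_mem hw hw', by rw [map_add]; ring⟩
      zero_mem' := ⟨0, 0, W.zero_mem, by simp⟩
      neg_mem' := by
        rintro x ⟨k, w, hw, rfl⟩
        exact ⟨-k, -w, W.neg_mem hw, by rw [map_neg]; ring⟩ }
  let I : Ideal A :=
    { carrier := {x | (x : E) ∈ W}
      add_mem' := fun {a b} ha hb => W.add_mem ha hb
      zero_mem' := W.zero_mem
      smul_mem' := by
        rintro ⟨c, k, w, hw, rfl⟩ ⟨x, hx'⟩ hx
        change (algebraMap K E k + w) * x ∈ W
        have hx : x ∈ W := hx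
        rw [add_mul, ← Algebra.smul_def]
        exact W.add_mem (W.smul_mem _ hx) (hmul _ hw _ hx) }
  have hI : I ≠ ⊤ := by
    intro h
    have h2 : (1 : A) ∈ I := h ▸ Submodule.mem_top
    exact h1 h2
  obtain ⟨B, hB, hIB⟩ := Ideal.image_subset_nonunits_valuationSubring I hI
  refine ⟨B, fun k => hB ⟨k, 0, W.zero_mem, by simp⟩, fun x hx => ?_⟩
  have hxA : x ∈ A := ⟨0, x, hx, by simp⟩
  have h3 : x ∈ B.nonunits := hIB ⟨⟨x, hxA⟩, hx, rfl⟩
  exact B.mem_nonunits_iff.1 h3

/-- Laurent monomials in the elements `y`. -/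
noncomputable def mon {q : ℕ} (y : Fin q → E) (β : Fin q → ℤ) : E := ∏ a, y a ^ β a

theorem mon_zero {q : ℕ} (y : Fin q → E) : mon y 0 = 1 := by simp [mon]

theorem mon_add {q : ℕ} (y : Fin q → E) (hy : ∀ a, y a ≠ 0) (β γ : Fin q → ℤ) :
    mon y (β + γ) = mon y β * mon y γ := by
  rw [mon, mon, mon, ← Finset.prod_mul_distrib]
  exact Finset.prod_congr rfl fun a _ => zpow_add₀ (hy a) _ _

theorem mon_neg {q : ℕ} (y : Fin q → E) (β : Fin q → ℤ) : mon y (-β) = (mon y β)⁻¹ := by
  rw [mon, mon, ← Finset.prod_inv_distrib]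
  exact Finset.prod_congr rfl fun a _ => zpow_neg _ _

theorem mon_ne_zero {q : ℕ} (y : Fin q → E) (hy : ∀ a, y a ≠ 0) (β : Fin q → ℤ) :
    mon y β ≠ 0 := Finset.prod_ne_zero_iff.2 fun a _ => zpow_ne_zero _ (hy a)

theorem linearIndependent_mon {q : ℕ} (y : Fin q → E) (hy : AlgebraicIndependent K y) :
    LinearIndependent K (mon y) := by
  classical
  have hy0 : ∀ a, y a ≠ 0 := fun a => hy.ne_zero a
  rw [linearIndependent_iff']
  intro S g hg β hβ
  obtain ⟨N, hN⟩ : ∃ N : ℕ, ∀ β ∈ S, ∀ a, 0 ≤ β a + N := by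
    refine ⟨∑ β ∈ S, ∑ a, (β a).natAbs, fun β hβ a => ?_⟩
    have h1 : (β a).natAbs ≤ ∑ β ∈ S, ∑ a, (β a).natAbs :=
      (Finset.single_le_sum (f := fun a => (β a).natAbs) (fun _ _ => Nat.zero_le _)
        (Finset.mem_univ a)).trans
        (Finset.single_le_sum (f := fun β : Fin q → ℤ => ∑ a, (β a).natAbs)
          (fun _ _ => Nat.zero_le _) hβ)
    omega
  let ex : (Fin q → ℤ) → (Fin q →₀ ℕ) := fun β =>
    Finsupp.equivFunOnFinite.symm fun a => (β a + N).toNat
  have hex : ∀ β ∈ S, ∀ γ ∈ S, ex β = ex γ → β = γ := by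
    intro β hβ γ hγ h
    funext a
    have h1 := DFunLike.congr_fun h a
    simp only [ex, Finsupp.equivFunOnFinite_symm_apply_apply] at h1
    have h2 := hN β hβ a
    have h3 := hN γ hγ a
    omega
  let P : MvPolynomial (Fin q) K := ∑ β ∈ S, MvPolynomial.monomial (ex β) (g β)
  have hP : MvPolynomial.aeval y P = 0 := by
    have h1 : ∀ β ∈ S, MvPolynomial.aeval y (MvPolynomial.monomial (ex β) (g β)) =
        (mon y fun _ => (N : ℤ)) * (g β • mon y β) := by
      intro β hβ
      rw [MvPolynomial.aeval_monomial, Algebra.smul_def]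
      rw [mul_left_comm]
      congr 1
      rw [← mon_add y hy0, mon, Finsupp.prod_fintype _ _ (fun a => pow_zero _)]
      refine Finset.prod_congr rfl fun a _ => ?_
      rw [← zpow_natCast]
      congr 1
      simp only [ex, Finsupp.equivFunOnFinite_symm_apply_apply, Pi.add_apply]
      have := hN β hβ a
      omega
    rw [map_sum, Finset.sum_congr rfl h1, ← Finset.mul_sum, hg, mul_zero]
  have hP0 : P = 0 := by
    have h2 := (algebraicIndependent_iff_injective_aeval.1 hy)
    exact h2 (by rw [hP, map_zero])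
  have hc := congrArg (MvPolynomial.coeff (ex β)) hP0
  simp only [P, MvPolynomial.coeff_sum, MvPolynomial.coeff_monomial, MvPolynomial.coeff_zero] at hc
  rw [Finset.sum_eq_single β] at hc
  · simpa using hc
  · intro γ hγ hne
    rw [if_neg]
    intro h
    exact hne (hex _ hγ _ hβ h)
  · intro h
    exact absurd hβ h

/-- There is a valuation, trivial on `K`, which separates the Laurent monomials. -/
theorem exists_val_mon {q : ℕ} (y : Fin q → E) (hy : AlgebraicIndependent K y) :
    ∃ B : ValuationSubring E, (∀ k : K, algebraMap K E k ∈ B) ∧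
      ∀ β : Fin q → ℤ, β ≠ 0 → B.valuation (mon y β) ≠ 1 := by
  have hy0 : ∀ a, y a ≠ 0 := fun a => hy.ne_zero a
  let P : Set (Fin q → ℤ) := {β | 0 < toLex β}
  let W : Submodule K E := Submodule.span K (mon y '' P)
  have hPadd : ∀ β ∈ P, ∀ γ ∈ P, β + γ ∈ P := fun β hβ γ hγ => by
    change 0 < toLex (β + γ)
    rw [toLex_add]
    exact add_pos hβ hγ
  have hmul : ∀ x ∈ W, ∀ z ∈ W, x * z ∈ W := by
    intro x hx z hz
    have h1 : W * W ≤ W := by
      rw [Submodule.span_mul_span]
      refine Submodule.span_le.2 ?_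
      rintro _ ⟨_, ⟨β, hβ, rfl⟩, _, ⟨γ, hγ, rfl⟩, rfl⟩
      refine Submodule.subset_span ⟨β + γ, hPadd _ hβ _ hγ, ?_⟩
      exact mon_add y hy0 _ _
    exact h1 (Submodule.mul_mem_mul hx hz)
  have h1 : (1 : E) ∉ W := by
    rw [← mon_zero y]
    refine (linearIndependent_mon y hy).notMem_span_image ?_
    intro h
    have h2 : (0 : Lex (Fin q → ℤ)) < toLex 0 := h
    rw [toLex_zero] at h2
    exact lt_irrefl _ h2
  obtain ⟨B, hB, hW⟩ := exists_val W hmul h1
  refine ⟨B, hB, fun β hβ => ?_⟩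
  rcases lt_trichotomy (0 : Lex (Fin q → ℤ)) (toLex β) with h | h | h
  · exact (hW _ (Submodule.subset_span ⟨β, h, rfl⟩)).ne
  · exact absurd (toLex.injective h.symm) hβ
  · have h2 : -β ∈ P := by
      change 0 < toLex (-β)
      rw [toLex_neg]
      exact neg_pos.2 h
    have h3 := hW _ (Submodule.subset_span ⟨-β, h2, rfl⟩)
    rw [mon_neg, map_inv₀] at h3
    intro h4
    rw [h4, inv_one] at h3
    exact lt_irrefl _ h3

end Pool.Agent.V8H75.Acit
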