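import Mathlib
import Pool.Agent.V8H75.Acit.Val

/-!
# Small flags

Let `l j` be finitely many nonzero vectors with weights `v j ∈ ℤ^q`. The weight of a subspace is
the sum of the weights of the vectors in it. If the weights of the subspaces of some chain span
`ℚ^q`, then there is such a chain of subspaces spanned by at most `q` of the vectors.
-/

namespace Pool.Agent.V8H75.Acit

section Exchange

variable {K E : Type*} [Field K] [AddCommGroup E] [Module K E]
variable {J : Type*} [Fintype J] {q : ℕ}

open Classical in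
/-- The weight of a subspace. -/
noncomputable def wt (l : J → E) (v : J → Fin q → ℤ) (G : Submodule K E) : Fin q → ℚ :=
  ∑ j ∈ Finset.univ.filter (fun j => l j ∈ G), fun a => (v j a : ℚ)

theorem mem_exchange (F : Submodule K E) {x y : E} (hx : x ∈ F ⊔ Submodule.span K {y})
    (hxF : x ∉ F) : y ∈ F ⊔ Submodule.span K {x} := by
  obtain ⟨f, hf, z, hz, rfl⟩ := Submodule.mem_sup.1 hx
  obtain ⟨c, rfl⟩ := Submodule.mem_span_singleton.1 hz
  have hc : c ≠ 0 := by
    rintro rfl
    exact hxF (by simpa using hf)
  have h1 : c⁻¹ • (f + c • y) - c⁻¹ • f = y := by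
    rw [smul_add, smul_smul, inv_mul_cancel₀ hc, one_smul]
    abel
  have h2 : c⁻¹ • (f + c • y) - c⁻¹ • f ∈ F ⊔ Submodule.span K {f + c • y} := by
    refine Submodule.sub_mem _ (Submodule.smul_mem _ _ ?_) (Submodule.smul_mem _ _ ?_)
    · exact Submodule.mem_sup_right (Submodule.mem_span_singleton_self _)
    · exact Submodule.mem_sup_left hf
  rwa [h1] at h2

theorem wt_mem_of_covers (l : J → E) (v : J → Fin q → ℤ) (F G : Submodule K E) (hFG : F ≤ G)
    (U : Submodule ℚ (Fin q → ℚ)) (hF : wt l v F ∈ U)
    (h : ∀ j, l j ∈ G → wt l v (F ⊔ Submodule.span K {l j}) ∈ U) : wt l v G ∈ U := by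
  classical
  let A : J → Submodule K E := fun j => F ⊔ Submodule.span K {l j}
  have hA : ∀ j, l j ∈ A j := fun j =>
    Submodule.mem_sup_right (Submodule.mem_span_singleton_self _)
  have hAF : ∀ j, l j ∈ F → A j = F := fun j hj =>
    sup_eq_left.2 ((Submodule.span_singleton_le_iff_mem _ _).2 hj)
  have hAG : ∀ j, l j ∈ G → A j ≤ G := fun j hj =>
    sup_le hFG ((Submodule.span_singleton_le_iff_mem _ _).2 hj)
  have key : wt l v G = ∑ A0 ∈ (Finset.univ.filter (fun j => l j ∈ G)).image A,
      ∑ j ∈ (Finset.univ.filter (fun j => l j ∈ G)).filter (fun j => A j = A0),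
        (fun a => (v j a : ℚ)) := by
    rw [wt, Finset.sum_fiberwise_of_maps_to]
    · exact fun j hj => Finset.mem_image_of_mem A hj
  rw [key]
  refine Submodule.sum_mem _ fun A0 hA0 => ?_
  obtain ⟨j0, hj0, rfl⟩ := Finset.mem_image.1 hA0
  have hj0G : l j0 ∈ G := (Finset.mem_filter.1 hj0).2
  by_cases hj0F : l j0 ∈ F
  · have h1 : (Finset.univ.filter (fun j => l j ∈ G)).filter (fun j => A j = A j0) =
        Finset.univ.filter (fun j => l j ∈ F) := by
      ext j
      simp only [Finset.mem_filter, Finset.mem_univ, true_and]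
      rw [hAF j0 hj0F]
      constructor
      · rintro ⟨_, h2⟩
        rw [← h2]
        exact hA j
      · intro h2
        exact ⟨hFG h2, hAF j h2⟩
    rw [h1]
    exact hF
  · have h1 : (Finset.univ.filter (fun j => l j ∈ G)).filter (fun j => A j = A j0) =
        (Finset.univ.filter (fun j => l j ∈ A j0)) \ (Finset.univ.filter (fun j => l j ∈ F)) := by
      ext j
      simp only [Finset.mem_filter, Finset.mem_univ, true_and, Finset.mem_sdiff]
      constructor
      · rintro ⟨_, h2⟩
        refine ⟨h2 ▸ hA j, fun h3 => hj0F ?_⟩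
        rw [← hAF j h3, h2]
        exact hA j0
      · rintro ⟨h2, h3⟩
        refine ⟨hAG j0 hj0G h2, le_antisymm ?_ ?_⟩
        · exact sup_le le_sup_left ((Submodule.span_singleton_le_iff_mem _ _).2 h2)
        · exact sup_le le_sup_left
            ((Submodule.span_singleton_le_iff_mem _ _).2 (mem_exchange F h2 h3))
    rw [h1]
    have h2 : (Finset.univ.filter (fun j => l j ∈ F)) ⊆
        (Finset.univ.filter (fun j => l j ∈ A j0)) := by
      intro j hj
      simp only [Finset.mem_filter, Finset.mem_univ, true_and] at hj ⊢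
      exact Submodule.mem_sup_left hj
    have h3 := Finset.sum_sdiff (f := fun j => (fun a => (v j a : ℚ) : Fin q → ℚ)) h2
    have h4 : ∑ j ∈ (Finset.univ.filter (fun j => l j ∈ A j0)) \
        (Finset.univ.filter (fun j => l j ∈ F)), (fun a => (v j a : ℚ) : Fin q → ℚ) =
        wt l v (A j0) - wt l v F := by
      rw [wt, wt]
      exact eq_sub_of_add_eq h3
    rw [h4]
    exact U.sub_mem (h j0 hj0G) hF

omit [Fintype J] in
theorem span_insert_eq (l : J → E) (T : Finset J) [DecidableEq J] (j : J) :
    Submodule.span K (l '' (insert j T : Finset J)) =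
      Submodule.span K (l '' (T : Set J)) ⊔ Submodule.span K {l j} := by
  rw [Finset.coe_insert, Set.image_insert_eq, Submodule.span_insert, sup_comm]

/-- Exchange: the chain is replaced by a chain of subspaces spanned by few vectors. -/
theorem exists_small_chain (l : J → E) (v : J → Fin q → ℤ) (p : ℕ) :
    ∀ (T0 : Finset J) (U : Submodule ℚ (Fin q → ℚ)) (C : Finset (Submodule K E)),
      IsChain (· ≤ ·) (C : Set (Submodule K E)) →
      (∀ G ∈ C, Submodule.span K (l '' (T0 : Set J)) ≤ G) →
      wt l v (Submodule.span K (l '' (T0 : Set J))) ∈ U →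
      U ⊔ Submodule.span ℚ (wt l v '' (C : Set (Submodule K E))) = ⊤ →
      q ≤ Module.finrank ℚ U + p →
      ∃ T : Finset (Finset J), IsChain (· ⊆ ·) (T : Set (Finset J)) ∧
        (∀ S ∈ T, T0 ⊆ S ∧ S.card ≤ T0.card + p) ∧
        U ⊔ Submodule.span ℚ ((fun S : Finset J => wt l v (Submodule.span K (l '' (S : Set J)))) ''
          (T : Set (Finset J))) = ⊤ := by
  classical
  induction p with
  | zero =>
    intro T0 U C _ _ _ _ hq
    refine ⟨∅, by simp, by simp, ?_⟩
    have h1 : U = ⊤ := by
      apply Submodule.eq_top_of_finrank_eq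
      rw [Module.finrank_fin_fun]
      refine le_antisymm ?_ (by simpa using hq)
      have := Submodule.finrank_le U
      rwa [Module.finrank_fin_fun] at this
    simp [h1]
  | succ p ih =>
    intro T0 U C hC hTC hT0 hspan hq
    by_cases hU : U = ⊤
    · exact ⟨∅, by simp, by simp, by simp [hU]⟩
    -- a minimal spanning subset of the chain
    let Pr : Finset (Submodule K E) → Prop := fun D =>
      D ⊆ C ∧ U ⊔ Submodule.span ℚ (wt l v '' (D : Set (Submodule K E))) = ⊤
    obtain ⟨D, hD, hmin⟩ : ∃ D, Pr D ∧ ∀ D', Pr D' → D.card ≤ D'.card := by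
      have hex : ∃ n, ∃ D, Pr D ∧ D.card = n := ⟨C.card, C, ⟨subset_rfl, hspan⟩, rfl⟩
      obtain ⟨D, hD, hcard⟩ := Nat.find_spec hex
      exact ⟨D, hD, fun D' hD' => hcard ▸ Nat.find_min' hex ⟨D', hD', rfl⟩⟩
    have hDne : D.Nonempty := by
      rw [Finset.nonempty_iff_ne_empty]
      rintro rfl
      apply hU
      simpa using hD.2
    -- its least element
    obtain ⟨G1, hG1, hG1min⟩ : ∃ G1 ∈ D, ∀ G ∈ D, G1 ≤ G := by
      obtain ⟨G1, hG1⟩ := D.exists_minimal hDne
      refine ⟨G1, hG1.1, fun G hG => ?_⟩
      rcases eq_or_ne G1 G with rfl | hne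
      · exact le_rfl
      · rcases hC (hD.1 hG1.1) (hD.1 hG) hne with h | h
        · exact h
        · exact hG1.2 hG h
    let U1 := U ⊔ Submodule.span ℚ (wt l v '' ((D.erase G1 : Finset (Submodule K E)) :
      Set (Submodule K E)))
    have hU1 : U1 ≠ ⊤ := by
      intro h
      have h1 := hmin (D.erase G1) ⟨(Finset.erase_subset _ _).trans hD.1, h⟩
      have h2 := Finset.card_erase_lt_of_mem hG1
      omega
    have hU1G : U1 ⊔ Submodule.span ℚ {wt l v G1} = ⊤ := by
      have h1 := hD.2
      rw [← Finset.insert_erase hG1, Finset.coe_insert, Set.image_insert_eq,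
        Submodule.span_insert] at h1
      rw [← h1]
      change U ⊔ _ ⊔ _ = _
      rw [sup_assoc, sup_comm (Submodule.span ℚ {wt l v G1})]
    obtain ⟨j, hj, hjU1⟩ : ∃ j, l j ∈ G1 ∧
        wt l v (Submodule.span K (l '' ((insert j T0 : Finset J) : Set J))) ∉ U1 := by
      by_contra hcon
      push Not at hcon
      apply hU1
      have h1 : wt l v G1 ∈ U1 := by
        refine wt_mem_of_covers l v (Submodule.span K (l '' (T0 : Set J))) G1
          (hTC G1 (hD.1 hG1)) U1 (Submodule.mem_sup_left hT0) fun j hj => ?_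
        rw [← span_insert_eq]
        exact hcon j hj
      rw [← hU1G]
      exact (sup_eq_left.2 ((Submodule.span_singleton_le_iff_mem _ _).2 h1)).symm
    set T1 : Finset J := insert j T0 with hT1
    set x : Fin q → ℚ := wt l v (Submodule.span K (l '' (T1 : Set J))) with hx
    let U' := U ⊔ Submodule.span ℚ {x}
    have hxU : x ∉ U := fun h => hjU1 (Submodule.mem_sup_left h)
    have hUU' : U < U' := by
      refine lt_of_le_of_ne le_sup_left fun h => hxU ?_
      rw [h]
      exact Submodule.mem_sup_right (Submodule.mem_span_singleton_self _)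
    have hrank : Module.finrank ℚ U < Module.finrank ℚ U' := Submodule.finrank_lt_finrank_of_lt hUU'
    obtain ⟨T, hTchain, hTcard, hTspan⟩ := ih T1 U' (D.erase G1)
      (hC.mono fun G hG => hD.1 (Finset.mem_of_mem_erase hG))
      (fun G hG => by
        have h1 : G ∈ D := Finset.mem_of_mem_erase hG
        rw [hT1, span_insert_eq]
        exact sup_le (hTC G (hD.1 h1))
          ((Submodule.span_singleton_le_iff_mem _ _).2 (hG1min G h1 hj)))
      (Submodule.mem_sup_right (Submodule.mem_span_singleton_self _))
      (by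
        have h1 : U' ⊔ Submodule.span ℚ (wt l v '' ((D.erase G1 : Finset (Submodule K E)) :
            Set (Submodule K E))) = U1 ⊔ Submodule.span ℚ {x} := by
          change U ⊔ _ ⊔ _ = U ⊔ _ ⊔ _
          rw [sup_assoc, sup_comm (Submodule.span ℚ {x}), ← sup_assoc]
        rw [h1, eq_top_iff, ← hU1G]
        refine sup_le le_sup_left ((Submodule.span_singleton_le_iff_mem _ _).2 ?_)
        have h2 : x ∈ U1 ⊔ Submodule.span ℚ {wt l v G1} := hU1G ▸ Submodule.mem_top
        exact mem_exchange U1 h2 hjU1)
      (by omega)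
    refine ⟨insert T1 T, ?_, ?_, ?_⟩
    · rw [Finset.coe_insert]
      refine hTchain.insert fun S hS _ => Or.inl (hTcard S hS).1
    · intro S hS
      rcases Finset.mem_insert.1 hS with rfl | hS
      · exact ⟨Finset.subset_insert _ _, by
          have := Finset.card_insert_le j T0
          rw [← hT1] at this
          omega⟩
      · refine ⟨(Finset.subset_insert _ _).trans (hTcard S hS).1, ?_⟩
        have h1 := (hTcard S hS).2
        have := Finset.card_insert_le j T0
        rw [← hT1] at this
        omega
    · rw [eq_top_iff, ← hTspan]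
      refine sup_le (sup_le le_sup_left ?_) ?_
      · refine le_sup_of_le_right ?_
        rw [Submodule.span_singleton_le_iff_mem]
        exact Submodule.subset_span ⟨T1, by simp, rfl⟩
      · refine le_sup_of_le_right (Submodule.span_mono ?_)
        refine Set.image_mono ?_
        rw [Finset.coe_insert]
        exact Set.subset_insert _ _

end Exchange

end Pool.Agent.V8H75.Acit
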