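import Mathlib
import Pool.Agent.V8H75.Acit.Flag

/-!
# Algebraically independent products of powers and small flags
-/

namespace Pool.Agent.V8H75.Acit

theorem prod_zpow_eq_one {Γ : Type*} [LinearOrderedCommGroupWithZero Γ] {J : Type*} [Fintype J]
    (f : J → Γ) (hf : ∀ j, f j ≠ 0) (b : J → ℤ)
    (h : ∀ j0, ∑ j ∈ Finset.univ.filter (fun j => f j ≤ f j0), b j = 0) :
    ∏ j, f j ^ b j = 1 := by
  classical
  rw [← Finset.prod_fiberwise_of_maps_to (s := Finset.univ) (t := Finset.univ.image f) (g := f)
    (fun j _ => Finset.mem_image_of_mem f (Finset.mem_univ j))]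
  refine Finset.prod_eq_one fun γ hγ => ?_
  obtain ⟨j0, -, rfl⟩ := Finset.mem_image.1 hγ
  have h1 : ∏ j ∈ Finset.univ.filter (fun j => f j = f j0), f j ^ b j =
      f j0 ^ ∑ j ∈ Finset.univ.filter (fun j => f j = f j0), b j := by
    have h2 : ∀ s : Finset J, (∀ j ∈ s, f j = f j0) →
        ∏ j ∈ s, f j ^ b j = f j0 ^ ∑ j ∈ s, b j := by
      intro s
      induction s using Finset.induction_on with
      | empty => simp
      | insert a s ha ih =>
        intro hs
        rw [Finset.prod_insert ha, Finset.sum_insert ha, zpow_add₀ (hf j0),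
          ih fun j hj => hs j (Finset.mem_insert_of_mem hj), hs a (Finset.mem_insert_self _ _)]
    exact h2 _ fun j hj => (Finset.mem_filter.1 hj).2
  rw [h1]
  have h3 : ∑ j ∈ Finset.univ.filter (fun j => f j < f j0), b j = 0 := by
    rcases (Finset.univ.filter (fun j => f j < f j0)).eq_empty_or_nonempty with h4 | h4
    · rw [h4, Finset.sum_empty]
    · obtain ⟨j1, hj1, hmax⟩ := Finset.exists_max_image _ f h4
      have h5 : Finset.univ.filter (fun j => f j < f j0) =
          Finset.univ.filter (fun j => f j ≤ f j1) := by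
        ext j
        simp only [Finset.mem_filter, Finset.mem_univ, true_and] at hj1 hmax ⊢
        exact ⟨fun hj => hmax j hj, fun hj => hj.trans_lt hj1⟩
      rw [h5]
      exact h j1
  have h6 : ∑ j ∈ Finset.univ.filter (fun j => f j = f j0), b j = 0 := by
    have h7 := h j0
    have h8 : Finset.univ.filter (fun j => f j ≤ f j0) =
        Finset.univ.filter (fun j => f j < f j0) ∪ Finset.univ.filter (fun j => f j = f j0) := by
      ext j
      simp only [Finset.mem_filter, Finset.mem_univ, true_and, Finset.mem_union]
      exact le_iff_lt_or_eq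
    rw [h8, Finset.sum_union, h3, zero_add] at h7
    · exact h7
    · rw [Finset.disjoint_filter]
      intro j _ h9 h10
      exact absurd h10 h9.ne
  rw [h6, zpow_zero]

variable {K E : Type*} [Field K] [Field E] [Algebra K E]
variable {J : Type*} [Fintype J] {q : ℕ}

theorem mon_prod (l : J → E) (hl : ∀ j, l j ≠ 0) (v : J → Fin q → ℤ) (β : Fin q → ℤ) :
    mon (fun a => ∏ j, l j ^ v j a) β = ∏ j, l j ^ ((∑ a, β a * v j a)) := by
  classical
  rw [mon]
  have h1 : ∀ a, (∏ j, l j ^ v j a) ^ β a = ∏ j, l j ^ (β a * v j a) := by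
    intro a
    rw [← Finset.prod_zpow]
    exact Finset.prod_congr rfl fun j _ => by rw [← zpow_mul, mul_comm]
  simp_rw [h1]
  rw [Finset.prod_comm]
  refine Finset.prod_congr rfl fun j _ => ?_
  have h2 : ∀ s : Finset (Fin q), ∏ a ∈ s, l j ^ (β a * v j a) = l j ^ ∑ a ∈ s, β a * v j a := by
    intro s
    induction s using Finset.induction_on with
    | empty => simp
    | insert a s ha ih => rw [Finset.prod_insert ha, Finset.sum_insert ha, zpow_add₀ (hl j), ih]
  exact h2 _

/-- If finitely many products of integral powers of the elements `l j` are algebraically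
independent, then the weights of a chain of subspaces spanned by at most `q` of the `l j` span
`ℚ^q`. -/
theorem exists_flag (l : J → E) (hl : ∀ j, l j ≠ 0) (v : J → Fin q → ℤ)
    (hy : AlgebraicIndependent K (fun a => ∏ j, l j ^ v j a)) :
    ∃ T : Finset (Finset J), IsChain (· ⊆ ·) (T : Set (Finset J)) ∧ (∀ S ∈ T, S.card ≤ q) ∧
      Submodule.span ℚ ((fun S : Finset J => wt l v (Submodule.span K (l '' (S : Set J)))) ''
        (T : Set (Finset J))) = ⊤ := by
  classical
  obtain ⟨B, hBK, hB⟩ := exists_val_mon (K := K) _ hy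
  let f : J → B.ValueGroup := fun j => B.valuation (l j)
  have hf : ∀ j, f j ≠ 0 := fun j => (Valuation.ne_zero_iff _).2 (hl j)
  let G : B.ValueGroup → Submodule K E := fun γ => Submodule.span K {x | ∃ j, x = l j ∧ f j ≤ γ}
  have hG : ∀ γ j, l j ∈ G γ ↔ f j ≤ γ := by
    intro γ j
    constructor
    · intro hj
      let M : Submodule K E :=
        { carrier := {x | B.valuation x ≤ γ}
          add_mem' := by
            intro a b ha hb
            change B.valuation (a + b) ≤ γ
            exact (B.valuation.map_add a b).trans (max_le ha hb)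
          zero_mem' := by
            change B.valuation 0 ≤ γ
            rw [map_zero]
            exact zero_le
          smul_mem' := by
            intro k x hx
            change B.valuation (k • x) ≤ γ
            rw [Algebra.smul_def, map_mul]
            have h1 : B.valuation (algebraMap K E k) ≤ 1 := (B.valuation_le_one_iff _).2 (hBK k)
            calc B.valuation (algebraMap K E k) * B.valuation x ≤ 1 * B.valuation x :=
                  mul_le_mul_left h1 _
              _ = B.valuation x := one_mul _
              _ ≤ γ := hx }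
      have h1 : G γ ≤ M := by
        refine Submodule.span_le.2 ?_
        rintro _ ⟨j', rfl, hj'⟩
        exact hj'
      exact h1 hj
    · intro hj
      exact Submodule.subset_span ⟨j, rfl, hj⟩
  have hGmono : ∀ γ γ', γ ≤ γ' → G γ ≤ G γ' := by
    intro γ γ' h
    refine Submodule.span_mono ?_
    rintro _ ⟨j, rfl, hj⟩
    exact ⟨j, rfl, hj.trans h⟩
  let C : Finset (Submodule K E) := Finset.univ.image fun j => G (f j)
  have hC : IsChain (· ≤ ·) (C : Set (Submodule K E)) := by
    intro X hX Y hY _
    simp only [C, Finset.coe_image, Finset.coe_univ, Set.image_univ, Set.mem_range] at hX hY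
    obtain ⟨j, rfl⟩ := hX
    obtain ⟨j', rfl⟩ := hY
    rcases le_total (f j) (f j') with h | h
    · exact Or.inl (hGmono _ _ h)
    · exact Or.inr (hGmono _ _ h)
  have hspan : Submodule.span ℚ (wt l v '' (C : Set (Submodule K E))) = ⊤ := by
    by_contra hne
    obtain ⟨g, hg0, hg⟩ := Submodule.exists_le_ker_of_lt_top _ (lt_top_iff_ne_top.2 hne)
    obtain ⟨⟨b, hb0⟩, hb⟩ := IsLocalization.exist_integer_multiples_of_finite
      (nonZeroDivisors ℤ) (fun a : Fin q => g (Pi.single a 1))
    choose β hβ using hb
    have hb0' : (b : ℚ) ≠ 0 := by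
      exact_mod_cast nonZeroDivisors.ne_zero hb0
    have hβ' : ∀ a, (β a : ℚ) = b * g (Pi.single a 1) := by
      intro a
      have h1 := hβ a
      simpa [Algebra.smul_def] using h1
    have hgx : ∀ x : Fin q → ℚ, (b : ℚ) * g x = ∑ a, (β a : ℚ) * x a := by
      intro x
      have h1 : x = ∑ a, x a • (Pi.single a 1 : Fin q → ℚ) := by
        funext a'
        simp [Finset.sum_apply, Pi.single_apply]
      conv_lhs => rw [h1]
      rw [map_sum, Finset.mul_sum]
      refine Finset.sum_congr rfl fun a _ => ?_
      rw [map_smul, smul_eq_mul, hβ']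
      ring
    have hβ0 : β ≠ 0 := by
      rintro rfl
      apply hg0
      refine LinearMap.ext fun x => ?_
      have h1 := hgx x
      simp only [Pi.zero_apply, Int.cast_zero, zero_mul, Finset.sum_const_zero] at h1
      exact (mul_eq_zero.1 h1).resolve_left hb0'
    refine hB β hβ0 ?_
    rw [mon_prod l hl, map_prod]
    simp_rw [map_zpow₀]
    refine prod_zpow_eq_one f hf _ fun j0 => ?_
    have h1 : g (wt l v (G (f j0))) = 0 := by
      have h2 : wt l v (G (f j0)) ∈ LinearMap.ker g := by
        refine hg (Submodule.subset_span ⟨G (f j0), ?_, rfl⟩)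
        exact Finset.mem_coe.2 (Finset.mem_image_of_mem _ (Finset.mem_univ _))
      exact h2
    have h3 := hgx (wt l v (G (f j0)))
    rw [h1, mul_zero] at h3
    have h4 : (Finset.univ.filter fun j => l j ∈ G (f j0)) =
        Finset.univ.filter fun j => f j ≤ f j0 := by
      ext j
      simp only [Finset.mem_filter, Finset.mem_univ, true_and]
      exact hG _ _
    have h5 : ((∑ j ∈ Finset.univ.filter (fun j => f j ≤ f j0), ∑ a, β a * v j a : ℤ) : ℚ) = 0 := by
      rw [h3, wt, h4]
      push_cast
      simp only [Finset.sum_apply, Finset.mul_sum]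
      rw [Finset.sum_comm]
    exact_mod_cast h5
  obtain ⟨T, hT1, hT2, hT3⟩ := exists_small_chain l v q ∅ ⊥ C hC
    (fun G _ => by simp) (by
      have h1 : wt l v (Submodule.span K (l '' ((∅ : Finset J) : Set J))) = 0 := by
        rw [wt]
        refine Finset.sum_eq_zero fun j hj => ?_
        have h2 := (Finset.mem_filter.1 hj).2
        simp only [Finset.coe_empty, Set.image_empty, Submodule.span_empty,
          Submodule.mem_bot] at h2
        exact absurd h2 (hl j)
      rw [h1]
      exact Submodule.zero_mem _) (by rw [bot_sup_eq]; exact hspan) (by simp)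
  refine ⟨T, hT1, fun S hS => ?_, by rw [bot_sup_eq] at hT3; exact hT3⟩
  have := (hT2 S hS).2
  simpa using this

end Pool.Agent.V8H75.Acit
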