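import Mathlib
import Pool.Agent.V8H75.Acit.Flag2

/-!
# Algebraic independence from a flag
-/

namespace Pool.Agent.V8H75.Acit

open Polynomial

theorem exists_weights {ι : Type*} [Fintype ι] (A : Finset (ι → ℚ)) (h : ∀ a ∈ A, a ≠ 0) :
    ∃ δ : ι → ℕ, (∀ i, 0 < δ i) ∧ ∀ a ∈ A, ∑ i, (δ i : ℚ) * a i ≠ 0 := by
  classical
  let e := Fintype.equivFin ι
  let P : (ι → ℚ) → ℚ[X] := fun a => ∑ i, monomial (e i : ℕ) (a i)
  have hP : ∀ a ∈ A, P a ≠ 0 := by
    intro a ha h0
    apply h a ha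
    funext i0
    have h1 := congrArg (fun p => p.coeff (e i0 : ℕ)) h0
    simp only [P, finsetSum_coeff, coeff_monomial, coeff_zero] at h1
    rw [Finset.sum_eq_single i0] at h1
    · simpa using h1
    · intro b _ hb
      rw [if_neg]
      intro h2
      exact hb (e.injective (Fin.ext h2))
    · intro h2
      exact absurd (Finset.mem_univ _) h2
  have hQ : ∏ a ∈ A, P a ≠ 0 := Finset.prod_ne_zero_iff.2 hP
  obtain ⟨B, hB⟩ : ∃ B : ℕ, (∏ a ∈ A, P a).eval (((B + 1 : ℕ) : ℚ)) ≠ 0 := by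
    by_contra hcon
    push Not at hcon
    refine hQ (eq_zero_of_infinite_isRoot _ (Set.infinite_of_injective_forall_mem
      (f := fun B : ℕ => (((B + 1 : ℕ) : ℚ))) ?_ hcon))
    intro a b hab
    have : ((a + 1 : ℕ) : ℚ) = ((b + 1 : ℕ) : ℚ) := hab
    have h2 : a + 1 = b + 1 := by exact_mod_cast this
    omega
  refine ⟨fun i => (B + 1) ^ (e i : ℕ), fun i => by positivity, fun a ha h0 => ?_⟩
  rw [eval_prod, Finset.prod_ne_zero_iff] at hB
  apply hB a ha
  simp only [P, eval_finsetSum, eval_monomial]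
  rw [← h0]
  refine Finset.sum_congr rfl fun i _ => ?_
  push_cast
  ring

variable {K : Type*} [Field K]

section Deg

variable {V : Type*} [AddCommGroup V] [Module K V] {J : Type*} [Fintype J]

open Classical in
/-- A linear map to polynomials with prescribed degrees along a chain of subspaces. -/
theorem exists_deg [Infinite K] (lam : J → V) (hlam : ∀ j, lam j ≠ 0) (δ : Submodule K V → ℕ)
    (n : ℕ) : ∀ G : Finset (Submodule K V), G.card = n →
      IsChain (· ≤ ·) (G : Set (Submodule K V)) → (∀ W ∈ G, 0 < δ W) →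
      ∃ p : V →ₗ[K] K[X], ∀ j, p (lam j) ≠ 0 ∧
        (p (lam j)).natDegree = ∑ W ∈ G.filter (fun W => lam j ∉ W), δ W := by
  induction n with
  | zero =>
    intro G hG _ _
    rw [Finset.card_eq_zero] at hG
    subst hG
    obtain ⟨f, hf⟩ := Module.exists_dual_forall_apply_ne_zero (K := K) lam hlam
    refine ⟨(Polynomial.monomial 0) ∘ₗ f, fun j => ⟨?_, ?_⟩⟩
    · rw [LinearMap.comp_apply, Ne, Polynomial.monomial_eq_zero_iff]
      exact hf j
    · rw [LinearMap.comp_apply, Polynomial.natDegree_monomial_eq _ (hf j)]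
      simp
  | succ n ih =>
    intro G hG hchain hδ
    have hGne : G.Nonempty := by
      rw [← Finset.card_pos]; omega
    obtain ⟨G1, hG1, hG1max⟩ : ∃ G1 ∈ G, ∀ W ∈ G, W ≤ G1 := by
      obtain ⟨G1, hG1⟩ := G.exists_maximal hGne
      refine ⟨G1, hG1.1, fun W hW => ?_⟩
      rcases eq_or_ne G1 W with rfl | hne
      · exact le_rfl
      · rcases hchain hG1.1 hW hne with h | h
        · exact hG1.2 hW h
        · exact h
    obtain ⟨p', hp'⟩ := ih (G.erase G1) (by rw [Finset.card_erase_of_mem hG1]; omega)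
      (hchain.mono fun W hW => Finset.mem_of_mem_erase hW)
      (fun W hW => hδ W (Finset.mem_of_mem_erase hW))
    obtain ⟨f, hf⟩ := Module.exists_dual_forall_apply_ne_zero (K := K) (M := V ⧸ G1)
      (fun j : {j // lam j ∉ G1} => (G1.mkQ (lam j)))
      (fun j => by
        rw [Ne, Submodule.mkQ_apply, Submodule.Quotient.mk_eq_zero]
        exact j.2)
    let N := ∑ W ∈ G, δ W
    refine ⟨p' + (Polynomial.monomial N) ∘ₗ (f ∘ₗ G1.mkQ), fun j => ?_⟩
    by_cases hj : lam j ∈ G1
    · have h1 : (p' + (Polynomial.monomial N) ∘ₗ (f ∘ₗ G1.mkQ)) (lam j) = p' (lam j) := by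
        have h2 : G1.mkQ (lam j) = 0 := by
          rw [Submodule.mkQ_apply, Submodule.Quotient.mk_eq_zero]
          exact hj
        rw [LinearMap.add_apply, LinearMap.comp_apply, LinearMap.comp_apply, h2, map_zero,
          map_zero, add_zero]
      rw [h1]
      refine ⟨(hp' j).1, ?_⟩
      rw [(hp' j).2]
      refine Finset.sum_congr ?_ fun _ _ => rfl
      ext W
      simp only [Finset.mem_filter, Finset.mem_erase]
      constructor
      · rintro ⟨⟨_, h3⟩, h4⟩
        exact ⟨h3, h4⟩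
      · rintro ⟨h3, h4⟩
        exact ⟨⟨fun h5 => h4 (h5 ▸ hj), h3⟩, h4⟩
    · have h1 : (p' + (Polynomial.monomial N) ∘ₗ (f ∘ₗ G1.mkQ)) (lam j) =
          p' (lam j) + Polynomial.monomial N (f (G1.mkQ (lam j))) := rfl
      have h2 : f (G1.mkQ (lam j)) ≠ 0 := hf ⟨j, hj⟩
      have h3 : (p' (lam j)).natDegree < (Polynomial.monomial N (f (G1.mkQ (lam j)))).natDegree := by
        rw [Polynomial.natDegree_monomial_eq _ h2, (hp' j).2]
        have h4 : ∑ W ∈ (G.erase G1).filter (fun W => lam j ∉ W), δ W ≤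
            ∑ W ∈ G.erase G1, δ W :=
          Finset.sum_le_sum_of_subset (Finset.filter_subset _ _)
        have h5 := Finset.add_sum_erase G δ hG1
        have h6 := hδ G1 hG1
        change _ < ∑ W ∈ G, δ W
        omega
      have h4 : ((p' + (Polynomial.monomial N) ∘ₗ (f ∘ₗ G1.mkQ)) (lam j)).natDegree = N := by
        rw [h1, Polynomial.natDegree_add_eq_right_of_natDegree_lt h3,
          Polynomial.natDegree_monomial_eq _ h2]
      refine ⟨fun h5 => ?_, ?_⟩
      · rw [h5, Polynomial.natDegree_zero] at h4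
        have h5 : δ G1 ≤ ∑ W ∈ G, δ W := Finset.single_le_sum (fun _ _ => Nat.zero_le _) hG1
        have h6 := hδ G1 hG1
        have h7 : N = ∑ W ∈ G, δ W := rfl
        omega
      · rw [h4]
        refine Finset.sum_congr ?_ fun _ _ => rfl
        symm
        rw [Finset.filter_eq_self]
        intro W hW h5
        exact hj (hG1max W hW h5)

end Deg

/-- The linear form with the given coefficients. -/
noncomputable def lin {s : ℕ} : (Fin s → K) →ₗ[K] MvPolynomial (Fin s) K :=
  ∑ i, (LinearMap.proj i).smulRight (MvPolynomial.X i)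

theorem lin_apply {s : ℕ} (u : Fin s → K) : lin u = ∑ i, u i • MvPolynomial.X i := by
  simp [lin, LinearMap.sum_apply]

theorem lin_single {s : ℕ} [DecidableEq (Fin s)] (i : Fin s) :
    lin (Pi.single i (1 : K)) = MvPolynomial.X i := by
  rw [lin_apply, Finset.sum_eq_single i]
  · simp
  · intro b _ hb
    rw [Pi.single_eq_of_ne hb, zero_smul]
  · intro h
    exact absurd (Finset.mem_univ _) h

theorem aeval_lin {s : ℕ} {A : Type*} [CommRing A] [Algebra K A] (p : (Fin s → K) →ₗ[K] A)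
    (u : Fin s → K) : MvPolynomial.aeval (fun i => p (Pi.single i 1)) (lin u) = p u := by
  rw [lin_apply, map_sum]
  simp_rw [map_smul, MvPolynomial.aeval_X]
  conv_rhs => rw [← LinearMap.sum_single_apply (fun _ => K) u]
  rw [map_sum]
  refine Finset.sum_congr rfl fun i _ => ?_
  rw [← map_smul]
  congr 1
  rw [← Pi.single_smul, smul_eq_mul, mul_one]

theorem lin_injective {s : ℕ} : Function.Injective (lin (K := K) (s := s)) := by
  rw [injective_iff_map_eq_zero]
  intro u hu
  have h1 := aeval_lin (K := K) (LinearMap.id (R := K) (M := Fin s → K)) u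
  rw [hu, map_zero] at h1
  exact h1.symm

variable {J : Type*} [Fintype J]

theorem sum_ne_zero [Infinite K] {s q : ℕ} (lam : J → Fin s → K) (hlam : ∀ j, lam j ≠ 0)
    (v : J → Fin q → ℤ) (hv : ∀ a, ∑ j, v j a = 0) (G : Finset (Submodule K (Fin s → K)))
    (hG : IsChain (· ≤ ·) (G : Set (Submodule K (Fin s → K))))
    (hspan : Submodule.span ℚ (wt lam v '' (G : Set (Submodule K (Fin s → K)))) = ⊤)
    (S : Finset (Fin q →₀ ℕ)) (hS : S.Nonempty) (c : (Fin q →₀ ℕ) → K) (hc : ∀ β ∈ S, c β ≠ 0)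
    (M : ℕ) (k : (Fin q →₀ ℕ) → J → ℕ)
    (hk : ∀ β ∈ S, ∀ j, (k β j : ℤ) = M + ∑ a, (β a : ℤ) * v j a) :
    ∑ β ∈ S, MvPolynomial.C (c β) * ∏ j, lin (lam j) ^ k β j ≠ 0 := by
  classical
  -- the pairings with the weights of the subspaces
  let pr : (Fin q →₀ ℕ) → (↥G → ℚ) := fun β W => ∑ a, (β a : ℚ) * wt lam v (W : Submodule K _) a
  have hpr : ∀ β γ, pr β = pr γ → β = γ := by
    intro β γ h
    let f : (Fin q → ℚ) →ₗ[ℚ] ℚ := ∑ a, ((β a : ℚ) - (γ a : ℚ)) • LinearMap.proj a
    have hf : ∀ x, f x = ∑ a, ((β a : ℚ) - (γ a : ℚ)) * x a := by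
      intro x
      simp [f, LinearMap.sum_apply]
    have h1 : ⊤ ≤ LinearMap.ker f := by
      rw [← hspan]
      refine Submodule.span_le.2 ?_
      rintro _ ⟨W, hW, rfl⟩
      have h2 := congrFun h ⟨W, hW⟩
      simp only [pr] at h2
      change f _ = 0
      rw [hf]
      simp only [sub_mul, Finset.sum_sub_distrib]
      rw [h2, sub_self]
    ext a
    have h2 : f (Pi.single a 1) = 0 := h1 Submodule.mem_top
    rw [hf, Finset.sum_eq_single a] at h2
    · rw [Pi.single_eq_same, mul_one, sub_eq_zero] at h2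
      exact_mod_cast h2
    · intro b _ hb
      rw [Pi.single_eq_of_ne hb, mul_zero]
    · intro h3
      exact absurd (Finset.mem_univ _) h3
  obtain ⟨δ', hδ'pos, hδ'⟩ := exists_weights
    ((((S ×ˢ S).filter fun x => x.1 ≠ x.2)).image fun x => pr x.1 - pr x.2) (by
      intro a ha
      obtain ⟨x, hx, rfl⟩ := Finset.mem_image.1 ha
      rw [sub_ne_zero]
      exact fun h => (Finset.mem_filter.1 hx).2 (hpr _ _ h))
  let δ : Submodule K (Fin s → K) → ℕ := fun W => if h : W ∈ G then δ' ⟨W, h⟩ else 1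
  have hδ : ∀ W ∈ G, 0 < δ W := by
    intro W hW
    simp only [δ, dif_pos hW]
    exact hδ'pos _
  obtain ⟨p, hp⟩ := exists_deg lam hlam δ G.card G rfl hG hδ
  intro h0
  have h1 := congrArg (MvPolynomial.aeval (fun i => p (Pi.single i 1))) h0
  rw [map_zero, map_sum] at h1
  simp_rw [map_mul, map_prod, map_pow, aeval_lin p, MvPolynomial.aeval_C] at h1
  -- the degrees
  have hdeg : ∀ β ∈ S, (algebraMap K K[X] (c β) * ∏ j, p (lam j) ^ k β j) ≠ 0 ∧
      (algebraMap K K[X] (c β) * ∏ j, p (lam j) ^ k β j).natDegree =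
        ∑ j, k β j * ∑ W ∈ G.filter (fun W => lam j ∉ W), δ W := by
    intro β hβ
    have h2 : (∏ j, p (lam j) ^ k β j) ≠ 0 :=
      Finset.prod_ne_zero_iff.2 fun j _ => pow_ne_zero _ (hp j).1
    have h3 : algebraMap K K[X] (c β) = C (c β) := rfl
    refine ⟨?_, ?_⟩
    · rw [h3]
      exact mul_ne_zero (C_ne_zero.2 (hc β hβ)) h2
    · rw [h3, natDegree_C_mul (hc β hβ), natDegree_prod _ _ fun j _ => pow_ne_zero _ (hp j).1]
      refine Finset.sum_congr rfl fun j _ => ?_
      rw [natDegree_pow, (hp j).2]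
  have hformula : ∀ β ∈ S, ((∑ j, k β j * ∑ W ∈ G.filter (fun W => lam j ∉ W), δ W : ℕ) : ℚ) =
      (∑ W : ↥G, (δ' W : ℚ) * ∑ j, if lam j ∉ (W : Submodule K (Fin s → K)) then (M : ℚ) else 0) -
        ∑ W : ↥G, (δ' W : ℚ) * pr β W := by
    intro β hβ
    have h2 : ∀ j, ((k β j : ℕ) : ℚ) = M + ∑ a, (β a : ℚ) * v j a := by
      intro j
      have := hk β hβ j
      exact_mod_cast congrArg (fun z : ℤ => (z : ℚ)) this
    have h3 : ∀ j, ((∑ W ∈ G.filter (fun W => lam j ∉ W), δ W : ℕ) : ℚ) =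
        ∑ W : ↥G, if lam j ∉ (W : Submodule K (Fin s → K)) then (δ' W : ℚ) else 0 := by
      intro j
      rw [Finset.sum_filter]
      push_cast
      rw [← Finset.sum_coe_sort G]
      refine Finset.sum_congr rfl fun W _ => ?_
      by_cases hj : lam j ∈ (W : Submodule K (Fin s → K))
      · simp [hj]
      · simp [hj, δ]
    push_cast at h3 ⊢
    simp_rw [h3, h2, Finset.mul_sum]
    rw [Finset.sum_comm, ← Finset.sum_sub_distrib]
    refine Finset.sum_congr rfl fun W _ => ?_
    have h4 : ∑ j, ∑ a, (β a : ℚ) * v j a = 0 := by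
      rw [Finset.sum_comm]
      refine Finset.sum_eq_zero fun a _ => ?_
      rw [← Finset.mul_sum]
      have h5 : (∑ j, (v j a : ℚ)) = 0 := by exact_mod_cast congrArg (fun z : ℤ => (z : ℚ)) (hv a)
      rw [h5, mul_zero]
    have h6 : (δ' W : ℚ) * pr β W = ∑ j, if lam j ∈ (W : Submodule K (Fin s → K)) then
        (δ' W : ℚ) * ∑ a, (β a : ℚ) * v j a else 0 := by
      simp only [pr, wt, Finset.sum_apply]
      rw [← Finset.sum_filter, ← Finset.mul_sum]
      congr 1
      simp_rw [Finset.mul_sum]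
      rw [Finset.sum_comm]
    have h7 : ∑ j, (if lam j ∈ (W : Submodule K (Fin s → K)) then
        (δ' W : ℚ) * ∑ a, (β a : ℚ) * v j a else 0) +
        ∑ j, (if lam j ∉ (W : Submodule K (Fin s → K)) then
        (δ' W : ℚ) * ∑ a, (β a : ℚ) * v j a else 0) = 0 := by
      have h8 : ∑ j, (δ' W : ℚ) * ∑ a, (β a : ℚ) * v j a = 0 := by
        rw [← Finset.mul_sum, h4, mul_zero]
      rw [← Finset.sum_add_distrib]
      refine Eq.trans (Finset.sum_congr rfl fun j _ => ?_) h8
      by_cases hj : lam j ∈ (W : Submodule K (Fin s → K))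
      · simp [hj]
      · simp [hj]
    rw [h6, eq_neg_of_add_eq_zero_left h7, sub_neg_eq_add, ← Finset.sum_add_distrib]
    refine Finset.sum_congr rfl fun j _ => ?_
    by_cases hj : lam j ∈ (W : Submodule K (Fin s → K))
    · simp [hj]
    · simp only [hj, not_false_eq_true, if_true]
      ring
  have hdist : Set.Pairwise {β | β ∈ S ∧ (algebraMap K K[X] (c β) *
      ∏ j, p (lam j) ^ k β j) ≠ 0}
      (Function.onFun (· ≠ ·) (degree ∘ fun β => algebraMap K K[X] (c β) *
        ∏ j, p (lam j) ^ k β j)) := by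
    rintro β ⟨hβ, _⟩ γ ⟨hγ, _⟩ hne
    simp only [Function.onFun, Function.comp_apply]
    rw [degree_eq_natDegree (hdeg β hβ).1, degree_eq_natDegree (hdeg γ hγ).1,
      (hdeg β hβ).2, (hdeg γ hγ).2]
    intro h2
    have h3 : (∑ j, k β j * ∑ W ∈ G.filter (fun W => lam j ∉ W), δ W) =
        ∑ j, k γ j * ∑ W ∈ G.filter (fun W => lam j ∉ W), δ W := by exact_mod_cast h2
    have h4 := congrArg (fun n : ℕ => (n : ℚ)) h3
    rw [hformula β hβ, hformula γ hγ] at h4
    have h5 := hδ' (pr β - pr γ) (Finset.mem_image.2 ⟨(β, γ), by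
      simp [hβ, hγ, hne], rfl⟩)
    apply h5
    simp only [Pi.sub_apply, mul_sub, Finset.sum_sub_distrib]
    linarith
  have h8 := degree_sum_eq_of_disjoint _ _ hdist
  rw [h1, degree_zero] at h8
  obtain ⟨β, hβ⟩ := hS
  have h9 : degree (algebraMap K K[X] (c β) * ∏ j, p (lam j) ^ k β j) ≤
      S.sup fun β => degree (algebraMap K K[X] (c β) * ∏ j, p (lam j) ^ k β j) :=
    Finset.le_sup (f := fun β => degree (algebraMap K K[X] (c β) * ∏ j, p (lam j) ^ k β j)) hβ
  rw [← h8, le_bot_iff, degree_eq_bot] at h9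
  exact (hdeg β hβ).1 h9

end Pool.Agent.V8H75.Acit
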