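import Mathlib
import Pool.Agent.V8H75.Acit.Lead

/-!
# Reduction of the number of variables

A linear map which is injective on the spans of at most `r + 1` of the linear forms `u j` does not
annihilate a nonzero sum of products of powers of the `u j` whose exponent vectors lie in an
affine subspace of dimension `r`.
-/

namespace Pool.Agent.V8H75.Acit

universe uK

variable {K : Type uK} [Field K] {J : Type*} [Fintype J]

theorem algInd_of_flag [Infinite K] {s q : ℕ} (lam : J → Fin s → K) (hlam : ∀ j, lam j ≠ 0)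
    (v : J → Fin q → ℤ) (hv : ∀ a, ∑ j, v j a = 0) (G : Finset (Submodule K (Fin s → K)))
    (hG : IsChain (· ≤ ·) (G : Set (Submodule K (Fin s → K))))
    (hspan : Submodule.span ℚ (wt lam v '' (G : Set (Submodule K (Fin s → K)))) = ⊤)
    {E : Type*} [Field E] [Algebra K E] (f : MvPolynomial (Fin s) K →ₐ[K] E)
    (hf : Function.Injective f) :
    AlgebraicIndependent K (fun a => ∏ j, (f (lin (lam j))) ^ v j a) := by
  classical
  rw [algebraicIndependent_iff]
  intro P hP
  by_contra hP0
  let L : J → E := fun j => f (lin (lam j))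
  have hL : ∀ j, L j ≠ 0 := by
    intro j h
    apply hlam j
    apply lin_injective
    rw [map_zero]
    apply hf
    rw [map_zero]
    exact h
  obtain ⟨M, hM⟩ : ∃ M : ℕ, ∀ β ∈ P.support, ∀ j, 0 ≤ (M : ℤ) + ∑ a, (β a : ℤ) * v j a := by
    refine ⟨∑ β ∈ P.support, ∑ j, (∑ a, (β a : ℤ) * v j a).natAbs, fun β hβ j => ?_⟩
    have h1 : (∑ a, (β a : ℤ) * v j a).natAbs ≤
        ∑ β ∈ P.support, ∑ j, (∑ a, (β a : ℤ) * v j a).natAbs :=
      (Finset.single_le_sum (f := fun j => (∑ a, (β a : ℤ) * v j a).natAbs)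
        (fun _ _ => Nat.zero_le _) (Finset.mem_univ j)).trans
        (Finset.single_le_sum (f := fun β : Fin q →₀ ℕ => ∑ j, (∑ a, (β a : ℤ) * v j a).natAbs)
          (fun _ _ => Nat.zero_le _) hβ)
    omega
  let k : (Fin q →₀ ℕ) → J → ℕ := fun β j => ((M : ℤ) + ∑ a, (β a : ℤ) * v j a).toNat
  have hk : ∀ β ∈ P.support, ∀ j, (k β j : ℤ) = M + ∑ a, (β a : ℤ) * v j a := fun β hβ j =>
    Int.toNat_of_nonneg (hM β hβ j)
  refine sum_ne_zero lam hlam v hv G hG hspan P.support
    (by rwa [Finset.nonempty_iff_ne_empty, Ne, MvPolynomial.support_eq_empty])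
    (fun β => P.coeff β) (fun β hβ => MvPolynomial.mem_support_iff.1 hβ) M k hk ?_
  apply hf
  rw [map_zero, map_sum, ← mul_zero (∏ j, L j ^ M), ← hP, MvPolynomial.aeval_def,
    MvPolynomial.eval₂_eq', Finset.mul_sum]
  refine Finset.sum_congr rfl fun β hβ => ?_
  rw [map_mul, map_prod, MvPolynomial.algHom_C, mul_left_comm]
  congr 1
  have h1 : ∏ a, (∏ j, L j ^ v j a) ^ (β a) = ∏ j, L j ^ (∑ a, (β a : ℤ) * v j a) := by
    have := mon_prod L hL v (fun a => (β a : ℤ))
    rw [← this, mon]
    exact Finset.prod_congr rfl fun a _ => by rw [zpow_natCast]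
  rw [h1, ← Finset.prod_mul_distrib]
  refine Finset.prod_congr rfl fun j _ => ?_
  rw [map_pow, ← zpow_natCast, ← zpow_natCast, ← zpow_add₀ (hL j), hk β hβ j]

theorem wt_eq_of_iff {E₁ E₂ : Type*} [AddCommGroup E₁] [Module K E₁] [AddCommGroup E₂]
    [Module K E₂] {q : ℕ} (l₁ : J → E₁) (l₂ : J → E₂) (v : J → Fin q → ℤ)
    (G₁ : Submodule K E₁) (G₂ : Submodule K E₂) (h : ∀ j, l₁ j ∈ G₁ ↔ l₂ j ∈ G₂) :
    wt l₁ v G₁ = wt l₂ v G₂ := by
  classical
  rw [wt, wt]
  refine Finset.sum_congr ?_ fun _ _ => rfl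
  ext j
  simp only [Finset.mem_filter, Finset.mem_univ, true_and]
  exact h j

theorem card_le_of_algInd {E : Type*} [Field E] [Algebra K E] {q t r : ℕ} (l : J → E)
    (hl : ∀ j, l j ≠ 0) (e : Fin t → J → ℕ) (i0 : Fin t) (ia : Fin q → Fin t)
    (hr : Module.finrank ℚ (Submodule.span ℚ (Set.range fun x : Fin t × Fin t =>
      fun j => (e x.1 j : ℚ) - e x.2 j)) ≤ r)
    (hy : AlgebraicIndependent K (fun a => ∏ j, l j ^ ((e (ia a) j : ℤ) - e i0 j))) : q ≤ r := by
  classical
  let v' : Fin q → (J → ℚ) := fun a j => (e (ia a) j : ℚ) - e i0 j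
  have h1 : LinearIndependent ℤ v' := by
    rw [Fintype.linearIndependent_iff]
    intro β hβ
    have h2 : mon (fun a => ∏ j, l j ^ ((e (ia a) j : ℤ) - e i0 j)) β =
        mon (fun a => ∏ j, l j ^ ((e (ia a) j : ℤ) - e i0 j)) 0 := by
      rw [mon_prod l hl (fun j a => (e (ia a) j : ℤ) - e i0 j),
        mon_prod l hl (fun j a => (e (ia a) j : ℤ) - e i0 j)]
      refine Finset.prod_congr rfl fun j _ => ?_
      congr 1
      have h3 : ∑ a, (β a : ℚ) * ((e (ia a) j : ℚ) - e i0 j) = 0 := by
        have h5 := congrFun hβ j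
        simpa [Finset.sum_apply, v'] using h5
      simp only [Pi.zero_apply, zero_mul, Finset.sum_const_zero]
      exact_mod_cast h3
    have h4 := (linearIndependent_mon _ hy).injective h2
    exact fun a => congrFun h4 a
  have h2 : LinearIndependent ℚ v' := (LinearIndependent.iff_fractionRing ℤ ℚ).1 h1
  have h3 := finrank_span_eq_card h2
  rw [Fintype.card_fin] at h3
  rw [← h3]
  refine le_trans (Submodule.finrank_mono (Submodule.span_mono ?_)) hr
  rintro _ ⟨a, rfl⟩
  exact ⟨(ia a, i0), rfl⟩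

open MvPolynomial in
/-- **Reduction of the number of variables.** -/
theorem dim_red [Infinite K] {N s r t : ℕ} (u : J → Fin N → K) (hu : ∀ j, u j ≠ 0)
    (φ : (Fin N → K) →ₗ[K] (Fin s → K))
    (hφ : ∀ T : Finset J, T.card ≤ r + 1 →
      ∀ x ∈ Submodule.span K (u '' (T : Set J)), φ x = 0 → x = 0)
    (c : Fin t → K) (e : Fin t → J → ℕ) (D : ℕ) (hD : ∀ i, ∑ j, e i j = D)
    (hr : Module.finrank ℚ (Submodule.span ℚ (Set.range fun x : Fin t × Fin t =>
      fun j => (e x.1 j : ℚ) - e x.2 j)) ≤ r)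
    (h : ∑ i, C (c i) * ∏ j, lin (φ (u j)) ^ e i j = 0) :
    ∑ i, C (c i) * ∏ j, lin (u j) ^ e i j = 0 := by
  classical
  by_contra hF
  -- the number of terms is positive
  obtain ⟨i0⟩ : Nonempty (Fin t) := by
    by_contra hne
    rw [not_nonempty_iff] at hne
    exact hF (by simp)
  have hinj : ∀ j, φ (u j) ≠ 0 := by
    intro j hj
    refine hu j (hφ {j} (by simp) (u j) (Submodule.subset_span ⟨j, by simp, rfl⟩) hj)
  have hlu : ∀ j, lin (u j) ≠ 0 := fun j hj => hu j (lin_injective (by rw [hj, map_zero]))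
  have hlφ : ∀ j, lin (φ (u j)) ≠ 0 := fun j hj => hinj j (lin_injective (by rw [hj, map_zero]))
  let A := MvPolynomial (Fin N) K
  let A' := MvPolynomial (Fin s) K
  let E' := FractionRing A'
  let M : Submonoid A := Submonoid.closure (Set.range fun j => lin (u j))
  have hM : M ≤ nonZeroDivisors A := by
    refine Submonoid.closure_le.2 ?_
    rintro _ ⟨j, rfl⟩
    exact mem_nonZeroDivisors_of_ne_zero (hlu j)
  have hMj : ∀ j, lin (u j) ∈ M := fun j => Submonoid.subset_closure ⟨j, rfl⟩
  let R := Localization M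
  have : IsDomain R := IsLocalization.isDomain_localization hM
  have hAR : Function.Injective (algebraMap A R) := IsLocalization.injective R hM
  have hA'E' : Function.Injective (algebraMap A' E') := IsFractionRing.injective A' E'
  -- the substitution
  let φ' : A →ₐ[K] A' := aeval fun i => lin (φ (Pi.single i 1))
  have hφ' : ∀ w, φ' (lin w) = lin (φ w) := fun w =>
    aeval_lin ((lin (K := K) (s := s)) ∘ₗ φ) w
  have hφC : ∀ a : K, φ' (C a) = C a := fun a => MvPolynomial.aeval_C _ a
  let g : A →+* E' := (algebraMap A' E').comp (φ' : A →+* A')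
  have hg : ∀ x : M, IsUnit (g x) := by
    rintro ⟨x, hx⟩
    change IsUnit (g x)
    induction hx using Submonoid.closure_induction with
    | mem x hx =>
      obtain ⟨j, rfl⟩ := hx
      rw [isUnit_iff_ne_zero]
      change algebraMap A' E' (φ' (lin (u j))) ≠ 0
      rw [hφ']
      exact fun h0 => hlφ j (hA'E' (by rw [h0, map_zero]))
    | one => rw [map_one]; exact isUnit_one
    | mul x y _ _ hx hy => rw [map_mul]; exact hx.mul hy
  let Φ : R →+* E' := IsLocalization.lift hg
  have hΦ : ∀ a : A, Φ (algebraMap A R a) = algebraMap A' E' (φ' a) := fun a =>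
    IsLocalization.lift_eq hg a
  let T : Fin t → A := fun i => ∏ j, lin (u j) ^ e i j
  have hTM : ∀ i, T i ∈ M := fun i => Submonoid.prod_mem _ fun j _ => Submonoid.pow_mem _ (hMj j) _
  let y : Fin t → R := fun i => IsLocalization.mk' R (T i) ⟨T i0, hTM i0⟩
  have hy : ∀ i, y i * algebraMap A R (T i0) = algebraMap A R (T i) := fun i =>
    IsLocalization.mk'_spec R (T i) ⟨T i0, hTM i0⟩
  let F : A := ∑ i, C (c i) * T i
  let F' : R := ∑ i, algebraMap K R (c i) * y i
  have hF' : F' * algebraMap A R (T i0) = algebraMap A R F := by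
    change (∑ i, algebraMap K R (c i) * y i) * algebraMap A R (T i0) =
      algebraMap A R (∑ i, C (c i) * T i)
    rw [Finset.sum_mul, map_sum]
    refine Finset.sum_congr rfl fun i _ => ?_
    rw [mul_assoc, hy, map_mul]
    rfl
  have hF'0 : F' ≠ 0 := by
    intro h0
    apply hF
    apply hAR
    rw [map_zero]
    change algebraMap A R F = 0
    rw [← hF', h0, zero_mul]
  have hΦF' : Φ F' = 0 := by
    have h1 := congrArg Φ hF'
    rw [map_mul, hΦ, hΦ] at h1
    have h2 : φ' F = 0 := by
      simp only [F, T, map_sum, map_mul, map_prod, map_pow, hφ', hφC]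
      exact h
    rw [h2, map_zero] at h1
    refine (mul_eq_zero.1 h1).resolve_right fun h0 => ?_
    have h3 : φ' (T i0) = 0 := hA'E' (by rw [h0, map_zero])
    simp only [T, map_prod, map_pow, hφ'] at h3
    exact Finset.prod_ne_zero_iff.2 (fun j _ => pow_ne_zero _ (hlφ j)) h3
  -- a transcendence basis among the `y i`
  obtain ⟨S, hS⟩ := (AlgebraicIndependent.matroid K R).exists_isBasis (Set.range y)
  have hS' := AlgebraicIndependent.matroid_isBasis_iff.1 hS
  have hF'mem : F' ∈ Algebra.adjoin K (Set.range y) := by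
    refine Subalgebra.sum_mem _ fun i _ => ?_
    exact Subalgebra.mul_mem _ (Subalgebra.algebraMap_mem _ _) (Algebra.subset_adjoin ⟨i, rfl⟩)
  have hF'alg : IsAlgebraic (Algebra.adjoin K S) F' := by
    rw [AlgebraicIndependent.isAlgebraic_adjoin_iff_of_matroid_isBasis hS]
    exact isAlgebraic_algebraMap (⟨F', hF'mem⟩ : Algebra.adjoin K (Set.range y))
  obtain ⟨ρ, hρ0, hρ⟩ := hF'alg.exists_nonzero_dvd (mem_nonZeroDivisors_of_ne_zero hF'0)
  have hSfin : S.Finite := (Set.finite_range y).subset hS'.2.1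
  obtain ⟨q, ⟨eS⟩⟩ : ∃ q : ℕ, Nonempty (Fin q ≃ S) := by
    have := hSfin.fintype
    exact ⟨Fintype.card S, ⟨(Fintype.equivFin S).symm⟩⟩
  have hind : AlgebraicIndependent K (fun a : Fin q => (eS a : R)) :=
    (AlgebraicIndependent.comp (x := fun x : S => (x : R)) hS'.1 eS eS.injective)
  choose ia hia using fun a : Fin q => hS'.2.1 (eS a).2
  -- the fraction field
  let E := FractionRing R
  have hRE : Function.Injective (algebraMap R E) := IsFractionRing.injective R E
  let l : J → E := fun j => algebraMap R E (algebraMap A R (lin (u j)))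
  have hl : ∀ j, l j ≠ 0 := fun j h0 => hlu j (hAR (hRE (by
    rw [map_zero, map_zero]; exact h0)))
  let v : J → Fin q → ℤ := fun j a => (e (ia a) j : ℤ) - e i0 j
  have hv : ∀ a, ∑ j, v j a = 0 := by
    intro a
    simp only [v, Finset.sum_sub_distrib]
    have h1 := hD (ia a)
    have h2 := hD i0
    rw [sub_eq_zero]
    exact_mod_cast h1.trans h2.symm
  have hprod : ∀ {E₀ : Type uK} [Field E₀] (Ψ : R →+* E₀) (L : J → E₀)
      (_ : ∀ j, Ψ (algebraMap A R (lin (u j))) = L j) (_ : ∀ j, L j ≠ 0) (a : Fin q),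
      Ψ (eS a) = ∏ j, L j ^ v j a := by
    intro E₀ _ Ψ L hL hL0 a
    rw [← hia a]
    have h1 := congrArg Ψ (hy (ia a))
    rw [map_mul] at h1
    have h2 : ∀ i, Ψ (algebraMap A R (T i)) = ∏ j, L j ^ (e i j) := by
      intro i
      simp only [T, map_prod, map_pow, hL]
    rw [h2, h2] at h1
    have h3 : ∏ j, L j ^ (e i0 j) ≠ 0 := Finset.prod_ne_zero_iff.2 fun j _ => pow_ne_zero _ (hL0 j)
    rw [← mul_left_inj' h3, h1, ← Finset.prod_mul_distrib]
    refine Finset.prod_congr rfl fun j _ => ?_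
    rw [← zpow_natCast, ← zpow_natCast, ← zpow_add₀ (hL0 j)]
    congr 1
    simp only [v]
    ring
  let ψE : R →ₐ[K] E := IsScalarTower.toAlgHom K R E
  have hindE : AlgebraicIndependent K (fun a => ∏ j, l j ^ v j a) := by
    have h1 := hind.map' (f := ψE) hRE
    have h2 : (fun a => ∏ j, l j ^ v j a) = ψE ∘ (fun a : Fin q => (eS a : R)) := by
      funext a
      exact (hprod (algebraMap R E) l (fun j => rfl) hl a).symm
    rw [h2]
    exact h1
  have hqr : q ≤ r := card_le_of_algInd l hl e i0 ia hr hindE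
  obtain ⟨T', hT'1, hT'2, hT'3⟩ := exists_flag l hl v hindE
  let lam : J → Fin s → K := fun j => φ (u j)
  let ψ : (Fin N → K) →ₗ[K] E :=
    ψE.toLinearMap ∘ₗ (IsScalarTower.toAlgHom K A R).toLinearMap ∘ₗ lin
  have hψ : Function.Injective ψ := hRE.comp (hAR.comp lin_injective)
  have hiff : ∀ S₀ ∈ T', ∀ j, lam j ∈ Submodule.span K (lam '' (S₀ : Set J)) ↔
      l j ∈ Submodule.span K (l '' (S₀ : Set J)) := by
    intro S₀ hS₀ j
    have h1 : Submodule.span K (lam '' (S₀ : Set J)) =
        (Submodule.span K (u '' (S₀ : Set J))).map φ := by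
      rw [Submodule.map_span, ← Set.image_comp]
      rfl
    have h2 : Submodule.span K (l '' (S₀ : Set J)) =
        (Submodule.span K (u '' (S₀ : Set J))).map ψ := by
      rw [Submodule.map_span, ← Set.image_comp]
      rfl
    rw [h1, h2]
    constructor
    · rintro ⟨w, hw, hwj⟩
      have h3 : w - u j = 0 := by
        refine hφ (insert j S₀) ?_ _ ?_ ?_
        · have := Finset.card_insert_le j S₀
          have := hT'2 S₀ hS₀
          omega
        · refine Submodule.sub_mem _ ?_ (Submodule.subset_span ⟨j, by simp, rfl⟩)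
          exact Submodule.span_mono (Set.image_mono (by simp)) hw
        · rw [map_sub, hwj, sub_self]
      rw [sub_eq_zero] at h3
      exact ⟨w, hw, by rw [h3]; rfl⟩
    · rintro ⟨w, hw, hwj⟩
      have h3 : w = u j := hψ (by rw [hwj]; rfl)
      exact ⟨w, hw, by rw [h3]⟩
  let G : Finset (Submodule K (Fin s → K)) :=
    T'.image fun S₀ : Finset J => Submodule.span K (lam '' (S₀ : Set J))
  have hG : IsChain (· ≤ ·) (G : Set (Submodule K (Fin s → K))) := by
    intro X hX Y hY _
    simp only [G, Finset.coe_image, Set.mem_image, Finset.mem_coe] at hX hY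
    obtain ⟨S₁, hS₁, rfl⟩ := hX
    obtain ⟨S₂, hS₂, rfl⟩ := hY
    rcases eq_or_ne S₁ S₂ with rfl | hne
    · exact Or.inl le_rfl
    · rcases hT'1 hS₁ hS₂ hne with h | h
      · exact Or.inl (Submodule.span_mono (Set.image_mono (by exact_mod_cast h)))
      · exact Or.inr (Submodule.span_mono (Set.image_mono (by exact_mod_cast h)))
  have hGspan : Submodule.span ℚ (wt lam v '' (G : Set (Submodule K (Fin s → K)))) = ⊤ := by
    rw [← hT'3]
    congr 1
    simp only [G, Finset.coe_image, ← Set.image_comp]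
    refine Set.image_congr fun S₀ hS₀ => ?_
    exact wt_eq_of_iff _ _ _ _ _ (hiff S₀ hS₀)
  have hindE' := algInd_of_flag lam hinj v hv G hG hGspan (IsScalarTower.toAlgHom K A' E') hA'E'
  let Φ' : R →ₐ[K] E' :=
    { Φ with
      commutes' := by
        intro k
        change Φ (algebraMap K R k) = _
        have h1 : algebraMap K R k = algebraMap A R (C k) := rfl
        rw [h1, hΦ, hφC]
        rfl }
  have hind' : AlgebraicIndependent K (fun a : Fin q => Φ' (eS a : R)) := by
    have h2 : (fun a : Fin q => Φ' (eS a : R)) =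
        fun a => ∏ j, (IsScalarTower.toAlgHom K A' E' (lin (lam j))) ^ v j a := by
      funext a
      exact hprod Φ (fun j => algebraMap A' E' (lin (lam j))) (fun j => by rw [hΦ, hφ'])
        (fun j h0 => hlφ j (hA'E' (by rw [h0, map_zero]))) a
    rw [h2]
    exact hindE'
  -- conclusion
  have hρR : (ρ : R) ∈ Algebra.adjoin K (Set.range fun a : Fin q => (eS a : R)) := by
    have h1 : Set.range (fun a : Fin q => (eS a : R)) = S := by
      ext x
      constructor
      · rintro ⟨a, rfl⟩
        exact (eS a).2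
      · intro hx
        exact ⟨eS.symm ⟨x, hx⟩, by simp⟩
    rw [h1]
    exact ρ.2
  rw [Algebra.adjoin_range_eq_range_aeval] at hρR
  obtain ⟨P, hP⟩ := hρR
  have hP' : MvPolynomial.aeval (fun a : Fin q => (eS a : R)) P = (ρ : R) := hP
  have hP0 : P ≠ 0 := by
    rintro rfl
    rw [map_zero] at hP'
    exact hρ0 (Subtype.ext hP'.symm)
  apply hP0
  rw [algebraicIndependent_iff] at hind'
  apply hind'
  have h1 : MvPolynomial.aeval (fun a : Fin q => Φ' (eS a : R)) P = Φ' (ρ : R) := by
    rw [← hP', ← MvPolynomial.comp_aeval]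
    rfl
  rw [h1]
  obtain ⟨z, hz⟩ := hρ
  have h2 : (ρ : R) = F' * z := hz
  rw [h2]
  change Φ (F' * z) = 0
  rw [map_mul, hΦF', zero_mul]

end Pool.Agent.V8H75.Acit
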