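import Mathlib
import Pool.Agent.V8H75.Acit.Dim
import Pool.Agent.V8H75.Acit.Cond

/-!
# Nonvanishing on the image of the condenser
-/

namespace Pool.Agent.V8H75.Acit

open MvPolynomial

universe uK

variable {K : Type uK} [Field K]

/-- The affine form `b + ∑ i, a i * x_i`. -/
noncomputable def aff {n : ℕ} (a : Fin n → K) (b : K) : MvPolynomial (Fin n) K :=
  C b + ∑ i, C (a i) * X i

/-- The points of the condenser. -/
def ptK (n r : ℕ) (c : K) (z : Fin r → K) : Fin n → K := fun i =>
  c ^ ((i : ℕ) + 1) * (1 + ∑ b : Fin r, z b * ((((b : ℕ) + 2 : ℕ) : K) ^ ((i : ℕ) + 1) - 1))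

/-- The dimension of the affine hull of the exponent vectors. -/
noncomputable def affRank {t : ℕ} {J : Type*} (e : Fin t → J → ℕ) : ℕ :=
  Module.finrank ℚ (Submodule.span ℚ (Set.range fun x : Fin t × Fin t =>
    fun j => (e x.1 j : ℚ) - e x.2 j))

theorem affRank_le_of_linear {t : ℕ} {J J' : Type*} [Fintype J] [Fintype J'] (e : Fin t → J → ℕ)
    (e' : Fin t → J' → ℕ) (L : (J → ℚ) →ₗ[ℚ] (J' → ℚ))
    (hL : ∀ x y : Fin t, L (fun j => (e x j : ℚ) - e y j) = fun j => (e' x j : ℚ) - e' y j) :
    affRank e' ≤ affRank e := by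
  have h1 : Submodule.span ℚ (Set.range fun x : Fin t × Fin t =>
      fun j => (e' x.1 j : ℚ) - e' x.2 j) = (Submodule.span ℚ (Set.range fun x : Fin t × Fin t =>
      fun j => (e x.1 j : ℚ) - e x.2 j)).map L := by
    rw [Submodule.map_span, ← Set.range_comp]
    congr 2
    funext x
    exact (hL x.1 x.2).symm
  rw [affRank, affRank, h1]
  exact Submodule.finrank_map_le _ _

/-- **Nonvanishing at a point of the condenser**, all forms nonzero. -/
theorem exists_point_aux [CharZero K] {n m t r : ℕ} (a : Fin m → Fin n → K) (b : Fin m → K)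
    (hab : ∀ j, (Fin.cons (b j) (a j) : Fin (n + 1) → K) ≠ 0) (c : Fin t → K)
    (e : Fin t → Fin m → ℕ) (hr : affRank e ≤ r)
    (hF : ∑ i, C (c i) * ∏ j, aff (a j) (b j) ^ e i j ≠ 0) :
    ∃ (c₀ : K) (z : Fin r → K),
      eval (ptK n r c₀ z) (∑ i, C (c i) * ∏ j, aff (a j) (b j) ^ e i j) ≠ 0 := by
  classical
  -- homogenisation
  let D : ℕ := ∑ i, ∑ j, e i j
  have hD : ∀ i, ∑ j, e i j ≤ D := fun i =>
    Finset.single_le_sum (f := fun i => ∑ j, e i j) (fun _ _ => Nat.zero_le _) (Finset.mem_univ i)
  let u : Option (Fin m) → (Fin (n + 1) → K) := fun o =>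
    o.elim (Pi.single 0 1) fun j => Fin.cons (b j) (a j)
  let e' : Fin t → Option (Fin m) → ℕ := fun i o => o.elim (D - ∑ j, e i j) (e i)
  have hu : ∀ o, u o ≠ 0 := by
    rintro (_ | j)
    · intro h
      have h1 := congrFun h 0
      simp [u] at h1
    · exact hab j
  have he' : ∀ i, ∑ o, e' i o = D := by
    intro i
    rw [Fintype.sum_option]
    simp only [e', Option.elim]
    have := hD i
    omega
  have hr' : affRank e' ≤ r := by
    refine le_trans (affRank_le_of_linear e e' (LinearMap.pi fun o => o.elim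
      (-∑ j, LinearMap.proj j) fun j => LinearMap.proj j) ?_) hr
    intro x y
    funext o
    rcases o with _ | j
    · simp only [LinearMap.pi_apply, Option.elim, LinearMap.neg_apply, LinearMap.sum_apply,
        LinearMap.proj_apply, e', Finset.sum_sub_distrib]
      rw [Nat.cast_sub (hD x), Nat.cast_sub (hD y)]
      push_cast
      ring
    · simp only [LinearMap.pi_apply, Option.elim, LinearMap.proj_apply, e']
  let Fh : MvPolynomial (Fin (n + 1)) K := ∑ i, C (c i) * ∏ o, lin (u o) ^ e' i o
  have hFh : Fh ≠ 0 := by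
    intro h0
    apply hF
    let ρ : MvPolynomial (Fin (n + 1)) K →ₐ[K] MvPolynomial (Fin n) K :=
      aeval (Fin.cons 1 fun i => X i)
    have hρ0 : ρ (lin (u none)) = 1 := by
      simp only [u, Option.elim]
      rw [lin_single]
      simp [ρ]
    have hρ : ∀ j, ρ (lin (u (some j))) = aff (a j) (b j) := by
      intro j
      simp only [u, Option.elim]
      rw [lin_apply, map_sum, Fin.sum_univ_succ]
      simp only [map_smul, ρ, aeval_X, Fin.cons_zero, Fin.cons_succ]
      rw [aff]
      congr 1
      · rw [smul_eq_C_mul, mul_one]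
      · exact Finset.sum_congr rfl fun i _ => smul_eq_C_mul _ _
    have h1 := congrArg ρ h0
    rw [map_zero] at h1
    rw [← h1]
    simp only [Fh, map_sum, map_mul, map_prod, map_pow, Fintype.prod_option, hρ0, hρ, one_pow,
      one_mul]
    refine Finset.sum_congr rfl fun i _ => ?_
    congr 1
    exact (aeval_C _ _).symm
  -- the condenser
  choose Bad hBad using fun T : {T : Finset (Option (Fin m)) // T.card ≤ r + 1} =>
    exists_bad n r (Submodule.span K (u '' (T.1 : Set (Option (Fin m))))) (by
      have h1 := finrank_span_finset_le_card (R := K) (T.1.image u)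
      rw [Finset.coe_image] at h1
      exact h1.trans (Finset.card_image_le.trans T.2))
  obtain ⟨c₀, hc₀⟩ := Infinite.exists_notMem_finset (Finset.univ.biUnion Bad)
  have hinj : ∀ T : Finset (Option (Fin m)), T.card ≤ r + 1 →
      ∀ x ∈ Submodule.span K (u '' (T : Set (Option (Fin m)))), cond n r c₀ x = 0 → x = 0 :=
    fun T hT x hx h0 => hBad ⟨T, hT⟩ c₀
      (fun h => hc₀ (Finset.mem_biUnion.2 ⟨⟨T, hT⟩, Finset.mem_univ _, h⟩)) x hx h0
  let G : MvPolynomial (Fin (r + 1)) K := ∑ i, C (c i) * ∏ o, lin (cond n r c₀ (u o)) ^ e' i o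
  have hG : G ≠ 0 := fun h0 => hFh (dim_red u hu (cond n r c₀) hinj c e' D he' hr' h0)
  -- a point with nonzero coordinate sum
  have hsum : (∑ b : Fin (r + 1), X b : MvPolynomial (Fin (r + 1)) K) ≠ 0 := by
    intro h0
    have h1 := congrArg (coeff (Finsupp.single 0 1)) h0
    rw [coeff_sum, Finset.sum_eq_single 0] at h1
    · simp at h1
    · intro b' _ hb'
      rw [coeff_X, if_neg]
      intro h2
      exact hb' (Finsupp.single_left_injective one_ne_zero h2)
    · intro h
      exact absurd (Finset.mem_univ _) h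
  obtain ⟨w', hw'⟩ : ∃ w', eval w' (G * ∑ b : Fin (r + 1), X b) ≠ 0 := by
    by_contra hcon
    push Not at hcon
    exact mul_ne_zero hG hsum (MvPolynomial.funext fun x => by rw [hcon x, map_zero])
  rw [map_mul] at hw'
  have hw1 : eval w' G ≠ 0 := left_ne_zero_of_mul hw'
  have hw2 : ∑ b, w' b ≠ 0 := by
    have := right_ne_zero_of_mul hw'
    simpa using this
  set σ := ∑ b, w' b with hσ
  let w : Fin (r + 1) → K := fun b => w' b / σ
  have hwsum : ∑ b, w b = 1 := by
    simp only [w]
    rw [← Finset.sum_div, ← hσ, div_self hw2]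
  have hevlin : ∀ (x : Fin (r + 1) → K) (v : Fin (r + 1) → K), eval x (lin v) = ∑ b, v b * x b := by
    intro x v
    rw [lin_apply, map_sum]
    exact Finset.sum_congr rfl fun b _ => by rw [smul_eval, eval_X]
  have hw : eval w G ≠ 0 := by
    intro h0
    apply hw1
    have h1 : eval w' G = σ ^ D * eval w G := by
      simp only [G, map_sum, map_mul, map_prod, map_pow, eval_C, hevlin, Finset.mul_sum]
      refine Finset.sum_congr rfl fun i _ => ?_
      rw [mul_left_comm]
      congr 1
      rw [← he' i, ← Finset.prod_pow_eq_pow_sum, ← Finset.prod_mul_distrib]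
      refine Finset.prod_congr rfl fun o _ => ?_
      rw [← mul_pow]
      congr 1
      rw [Finset.mul_sum]
      refine Finset.sum_congr rfl fun b' _ => ?_
      simp only [w]
      rw [mul_left_comm, mul_div_cancel₀ _ hw2]
    rw [h1, h0, mul_zero]
  refine ⟨c₀, fun b' => w b'.succ, ?_⟩
  -- comparison
  have hw0 : w 0 = 1 - ∑ b' : Fin r, w b'.succ := by
    rw [Fin.sum_univ_succ] at hwsum
    linear_combination hwsum
  have hx : ∀ (v : Fin (n + 1) → K), ∑ b', cond n r c₀ v b' * w b' =
      v 0 + ∑ i : Fin n, v i.succ * ptK n r c₀ (fun b' => w b'.succ) i := by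
    intro v
    simp only [cond_apply, Finset.sum_mul]
    rw [Finset.sum_comm, Fin.sum_univ_succ]
    congr 1
    · simp only [Fin.val_zero, pow_zero, one_mul]
      rw [← Finset.mul_sum, hwsum, mul_one]
    · refine Finset.sum_congr rfl fun i _ => ?_
      rw [Fin.sum_univ_succ, hw0, ptK]
      simp only [Fin.val_zero, Fin.val_succ, zero_add, Nat.cast_one, one_mul]
      rw [mul_add, mul_add, mul_one, Finset.mul_sum, Finset.mul_sum, mul_sub, mul_one,
        Finset.mul_sum, sub_add, ← Finset.sum_sub_distrib, sub_eq_add_neg, ← Finset.sum_neg_distrib]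
      congr 1
      · ring
      · refine Finset.sum_congr rfl fun b' _ => ?_
        rw [mul_pow]
        push_cast
        ring
  intro h0
  apply hw
  rw [← h0]
  simp only [G, map_sum, map_mul, map_prod, map_pow, eval_C, hevlin, hx, Fintype.prod_option]
  refine Finset.sum_congr rfl fun i _ => ?_
  congr 1
  have h1 : (u none 0 + ∑ i : Fin n, u none i.succ * ptK n r c₀ (fun b' => w b'.succ) i) = 1 := by
    simp [u]
  rw [h1, one_pow, one_mul]
  refine Finset.prod_congr rfl fun j _ => ?_
  simp only [aff, map_add, map_sum, map_mul, eval_C, eval_X, u, Option.elim, Fin.cons_zero,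
    Fin.cons_succ, e']

end Pool.Agent.V8H75.Acit
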