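import Mathlib

/-!
# Zeros of linear combinations of polynomials on intervals without zeros of Wronskians
-/

namespace Pool.Agent.V8H75.Acit

open Polynomial

section Wr

variable {R : Type*} [CommRing R]

/-- The Wronskian. -/
noncomputable def wr {k : ℕ} (f : Fin k → R[X]) : R[X] :=
  (Matrix.of fun i l : Fin k => derivative^[(l : ℕ)] (f i)).det

/-- Coefficients of the iterated derivatives of `f₀ h' - f₀' h`. -/
noncomputable def co (f0 : R[X]) : ℕ → ℕ → R[X]
  | 0, 0 => -derivative f0
  | 0, 1 => f0
  | 0, _ + 2 => 0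
  | l + 1, 0 => derivative (co f0 l 0)
  | l + 1, m + 1 => derivative (co f0 l (m + 1)) + co f0 l m

theorem co_eq_zero (f0 : R[X]) : ∀ l m, l + 1 < m → co f0 l m = 0
  | 0, 0, h => absurd h (by omega)
  | 0, 1, h => absurd h (by omega)
  | 0, _ + 2, _ => by rw [co]
  | l + 1, 0, h => absurd h (by omega)
  | l + 1, m + 1, h => by
    rw [co, co_eq_zero f0 l (m + 1) (by omega), co_eq_zero f0 l m (by omega)]
    simp

theorem co_diag (f0 : R[X]) : ∀ l, co f0 l (l + 1) = f0
  | 0 => by rw [co]
  | l + 1 => by
    rw [co, co_eq_zero f0 l (l + 1 + 1) (by omega), co_diag f0 l]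
    simp

theorem iterate_wronskian (f0 h : R[X]) (l : ℕ) (n : ℕ) (hn : l + 2 ≤ n) :
    derivative^[l] (f0 * derivative h - derivative f0 * h) =
      ∑ m ∈ Finset.range n, co f0 l m * derivative^[m] h := by
  induction l generalizing n with
  | zero =>
    obtain ⟨n, rfl⟩ := Nat.exists_eq_add_of_le' hn
    rw [Finset.sum_range_succ', Finset.sum_range_succ', Finset.sum_eq_zero]
    · simp only [Function.iterate_zero, id_eq, co, Nat.zero_add, Function.iterate_one]
      ring
    · intro m _
      simp [co]
  | succ l ih =>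
    obtain ⟨n, rfl⟩ : ∃ n', n = n' + 1 := ⟨n - 1, by omega⟩
    rw [Function.iterate_succ_apply', ih (n + 1) (by omega), derivative_sum]
    have h1 : ∀ m, derivative (co f0 l m * derivative^[m] h) =
        derivative (co f0 l m) * derivative^[m] h + co f0 l m * derivative^[m + 1] h := by
      intro m
      rw [derivative_mul, Function.iterate_succ_apply']
    simp only [h1, Finset.sum_add_distrib]
    rw [Finset.sum_range_succ', Finset.sum_range_succ _ n,
      co_eq_zero f0 l n (by omega), zero_mul, add_zero, Finset.sum_range_succ']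
    simp only [co, add_mul, Finset.sum_add_distrib]
    ring

/-- The reduction of a Wronskian. -/
theorem wr_reduce {k : ℕ} (f : Fin (k + 1) → R[X]) :
    wr f * (f 0) ^ k = f 0 * wr (fun i : Fin k =>
      f 0 * derivative (f i.succ) - derivative (f 0) * f i.succ) := by
  let A : Matrix (Fin (k + 1)) (Fin (k + 1)) R[X] := Matrix.of fun m l =>
    Fin.cases (if m = 0 then 1 else 0) (fun l' : Fin k => co (f 0) l' m) l
  have hA : A.det = (f 0) ^ k := by
    rw [Matrix.det_of_isUpperTriangular]
    · rw [Fin.prod_univ_succ]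
      have h1 : A 0 0 = 1 := by simp [A]
      have h2 : ∀ i : Fin k, A i.succ i.succ = f 0 := by
        intro i
        simp only [A, Matrix.of_apply, Fin.cases_succ, Fin.val_succ]
        exact co_diag _ _
      rw [h1, one_mul]
      simp [h2]
    · intro m l hml
      have hml' : l < m := hml
      induction l using Fin.cases with
      | zero =>
        simp only [A, Matrix.of_apply, Fin.cases_zero]
        rw [if_neg (Fin.pos_iff_ne_zero.1 hml')]
      | succ l =>
        simp only [A, Matrix.of_apply, Fin.cases_succ]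
        apply co_eq_zero
        have := Fin.lt_def.1 hml'
        rw [Fin.val_succ] at this
        omega
  have hmul : (Matrix.of fun i l : Fin (k + 1) => derivative^[(l : ℕ)] (f i)) * A =
      Matrix.of fun i l : Fin (k + 1) => Fin.cases (f i) (fun l' : Fin k =>
        derivative^[(l' : ℕ)] (f 0 * derivative (f i) - derivative (f 0) * f i)) l := by
    ext1 i l
    rw [Matrix.mul_apply]
    induction l using Fin.cases with
    | zero =>
      simp only [A, Matrix.of_apply, Fin.cases_zero]
      rw [Finset.sum_eq_single 0]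
      · simp
      · intro m _ hm
        rw [if_neg hm, mul_zero]
      · intro h
        exact absurd (Finset.mem_univ _) h
    | succ l =>
      simp only [A, Matrix.of_apply, Fin.cases_succ]
      rw [iterate_wronskian (f 0) (f i) l (k + 1) (by omega), Finset.sum_range]
      exact Finset.sum_congr rfl fun m _ => mul_comm _ _
  rw [← hA, wr, ← Matrix.det_mul, hmul, Matrix.det_succ_row_zero, Fin.sum_univ_succ]
  have h3 : ∀ j : Fin k, (Matrix.of fun i l : Fin (k + 1) => Fin.cases (f i) (fun l' : Fin k =>
        derivative^[(l' : ℕ)] (f 0 * derivative (f i) - derivative (f 0) * f i)) l :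
        Matrix (Fin (k + 1)) (Fin (k + 1)) R[X]) 0 j.succ = 0 := by
    intro j
    simp only [Matrix.of_apply, Fin.cases_succ]
    rw [mul_comm, sub_self]
    exact iterate_derivative_zero
  simp only [h3, mul_zero, zero_mul, Finset.sum_const_zero, add_zero]
  simp only [Fin.val_zero, pow_zero, one_mul, Matrix.of_apply, Fin.cases_zero]
  congr 1

end Wr

section Indep

variable {F : Type*} [Field F] [CharZero F]

theorem proportional (f h : F[X]) (hf : f ≠ 0)
    (hw : f * derivative h - derivative f * h = 0) : ∃ a : F, h = a • f := by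
  classical
  by_cases hh : h = 0
  · exact ⟨0, by simp [hh]⟩
  have hcop := isCoprime_div_gcd_div_gcd (p := h) hf
  set g := GCDMonoid.gcd h f with hg
  have hg0 : g ≠ 0 := gcd_ne_zero_of_right hf
  have h1 : g * (h / g) = h := EuclideanDomain.mul_div_cancel' hg0 (gcd_dvd_left _ _)
  have h2 : g * (f / g) = f := EuclideanDomain.mul_div_cancel' hg0 (gcd_dvd_right _ _)
  have h3 : wronskian (f / g) (h / g) = 0 := by
    have h4 : g ^ 2 * wronskian (f / g) (h / g) = 0 := by
      rw [← hw]
      conv_rhs => rw [← h1, ← h2]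
      rw [wronskian, derivative_mul, derivative_mul]
      ring
    exact (mul_eq_zero.1 h4).resolve_left (pow_ne_zero _ hg0)
  obtain ⟨h5, h6⟩ := hcop.symm.wronskian_eq_zero_iff.1 h3
  have h7 := eq_C_of_derivative_eq_zero h5
  have h8 := eq_C_of_derivative_eq_zero h6
  set a := (f / g).coeff 0
  set b := (h / g).coeff 0
  have ha : a ≠ 0 := by
    intro ha
    apply hf
    rw [← h2, h7, ha, C_0, mul_zero]
  refine ⟨b / a, ?_⟩
  rw [← h1, ← h2, h7, h8, smul_eq_C_mul]
  have : (C (b / a) : F[X]) * (g * C a) = g * (C (b / a) * C a) := by ring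
  rw [this, ← C_mul, div_mul_cancel₀ _ ha]

theorem wr_ne_zero : ∀ {k : ℕ} (f : Fin k → F[X]), LinearIndependent F f → wr f ≠ 0
  | 0, f, _ => by simp [wr]
  | k + 1, f, hf => by
    have hf0 : f 0 ≠ 0 := hf.ne_zero 0
    intro h0
    have h1 := wr_reduce f
    rw [h0, zero_mul] at h1
    have h2 := (mul_eq_zero.1 h1.symm).resolve_left hf0
    refine wr_ne_zero _ ?_ h2
    rw [Fintype.linearIndependent_iff]
    intro d hd
    obtain ⟨a, ha⟩ := proportional (f 0) (∑ i, d i • f i.succ) hf0 (by
      rw [← hd, derivative_sum, Finset.mul_sum, Finset.mul_sum, ← Finset.sum_sub_distrib]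
      refine Finset.sum_congr rfl fun i _ => ?_
      rw [derivative_smul, smul_sub, mul_smul_comm, mul_smul_comm])
    have h3 := Fintype.linearIndependent_iff.1 hf (Fin.cons (-a) d) (by
      rw [Fin.sum_univ_succ]
      simp only [Fin.cons_zero, Fin.cons_succ]
      rw [ha]
      simp)
    intro i
    have := h3 i.succ
    simpa using this

omit [CharZero F] in
theorem linearIndependent_of_wr_ne_zero {k : ℕ} (f : Fin k → F[X]) (h : wr f ≠ 0) :
    LinearIndependent F f := by
  rw [Fintype.linearIndependent_iff]
  intro d hd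
  by_contra hne
  push Not at hne
  obtain ⟨i, hi⟩ := hne
  apply h
  refine Matrix.exists_vecMul_eq_zero_iff.mp ⟨fun i => C (d i), ?_, ?_⟩
  · intro h0
    exact hi (C_eq_zero.1 (congrFun h0 i))
  · funext l
    simp only [Matrix.vecMul, dotProduct, Matrix.of_apply, Pi.zero_apply]
    have h1 := congrArg (fun p => derivative^[(l : ℕ)] p) hd
    simp only [iterate_derivative_sum, iterate_derivative_smul, iterate_derivative_zero] at h1
    rw [← h1]
    exact Finset.sum_congr rfl fun i _ => (smul_eq_C_mul _).symm

end Indep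

/-- Zeros of a linear combination on a set without zeros of the Wronskians. -/
theorem card_lt_of_wr_ne_zero (I : Set ℝ) (hI : I.OrdConnected) :
    ∀ {k : ℕ} (f : Fin k → ℝ[X]),
      (∀ (p : ℕ) (hp : p ≤ k), ∀ x ∈ I, (wr fun i : Fin p => f (Fin.castLE hp i)).eval x ≠ 0) →
      ∀ c : Fin k → ℝ, ∑ i, c i • f i ≠ 0 → ∀ S : Finset ℝ, (S : Set ℝ) ⊆ I →
        (∀ x ∈ S, (∑ i, c i • f i).eval x = 0) → S.card < k
  | 0, f, _, c, hc, _, _, _ => absurd (by simp) hc
  | k + 1, f, hf, c, hc, S, hSI, hS => by
    classical
    have hf0 : ∀ x ∈ I, (f 0).eval x ≠ 0 := by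
      intro x hx h0
      apply hf 1 (by omega) x hx
      rw [wr, Matrix.det_fin_one]
      simpa using h0
    rcases S.eq_empty_or_nonempty with hSe | ⟨x0, hx0⟩
    · subst hSe
      simp
    let g : Fin k → ℝ[X] := fun i => f 0 * derivative (f i.succ) - derivative (f 0) * f i.succ
    have hg : ∀ (p : ℕ) (hp : p ≤ k), ∀ x ∈ I,
        (wr fun i : Fin p => g (Fin.castLE hp i)).eval x ≠ 0 := by
      intro p hp x hx h0
      have h1 := wr_reduce (fun i : Fin (p + 1) => f (Fin.castLE (Nat.succ_le_succ hp) i))
      have h2 := congrArg (fun q => q.eval x) h1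
      simp only [eval_mul, eval_pow] at h2
      have h3 : (wr fun i : Fin p => (f (Fin.castLE (Nat.succ_le_succ hp) 0) *
          derivative (f (Fin.castLE (Nat.succ_le_succ hp) i.succ)) -
          derivative (f (Fin.castLE (Nat.succ_le_succ hp) 0)) *
            f (Fin.castLE (Nat.succ_le_succ hp) i.succ))).eval x = 0 := h0
      rw [h3, mul_zero] at h2
      rcases mul_eq_zero.1 h2 with h4 | h4
      · exact hf (p + 1) (Nat.succ_le_succ hp) x hx h4
      · exact pow_ne_zero p (hf0 x hx) h4
    set P : ℝ[X] := ∑ i, c i • f i with hP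
    let Q : ℝ[X] := ∑ i : Fin k, c i.succ • g i
    have hPQ : f 0 * derivative P - derivative (f 0) * P = Q := by
      rw [hP, derivative_sum, Finset.mul_sum, Finset.mul_sum, ← Finset.sum_sub_distrib,
        Fin.sum_univ_succ]
      have h1 : f 0 * derivative (c 0 • f 0) - derivative (f 0) * c 0 • f 0 = 0 := by
        rw [derivative_smul, mul_smul_comm, mul_smul_comm, mul_comm, sub_self]
      rw [h1, zero_add]
      refine Finset.sum_congr rfl fun i _ => ?_
      rw [derivative_smul, smul_sub, mul_smul_comm, mul_smul_comm]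
    by_cases hc0 : ∀ i : Fin k, c i.succ = 0
    · -- only the first function occurs
      exfalso
      have h1 : P = c 0 • f 0 := by
        rw [hP, Fin.sum_univ_succ]
        simp [hc0]
      have h2 := hS x0 hx0
      rw [h1, eval_smul, smul_eq_mul] at h2
      rcases mul_eq_zero.1 h2 with h3 | h3
      · apply hc
        rw [h1, h3, zero_smul]
      · exact hf0 x0 (hSI hx0) h3
    push Not at hc0
    have hQ : Q ≠ 0 := by
      intro h0
      have h1 : LinearIndependent ℝ g := by
        refine linearIndependent_of_wr_ne_zero g fun h2 => ?_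
        apply hg k le_rfl x0 (hSI hx0)
        have h3 : (fun i : Fin k => g (Fin.castLE le_rfl i)) = g := by
          funext i
          rfl
        rw [h3, h2, eval_zero]
      obtain ⟨i, hi⟩ := hc0
      exact hi (Fintype.linearIndependent_iff.1 h1 (fun i => c i.succ) h0 i)
    have key : S.card ≤ (Q.roots.toFinset.filter (· ∈ I)).card + 1 := by
      refine Finset.card_le_of_interleaved fun x hx y hy hxy _ => ?_
      have hIcc : Set.Icc x y ⊆ I := hI.out (hSI hx) (hSI hy)
      have hder : ∀ z ∈ I, HasDerivAt (fun z => P.eval z / (f 0).eval z)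
          (((derivative P).eval z * (f 0).eval z - P.eval z * (derivative (f 0)).eval z) /
            ((f 0).eval z) ^ 2) z := fun z hz =>
        (P.hasDerivAt z).div ((f 0).hasDerivAt z) (hf0 z hz)
      obtain ⟨z, hz, hz0⟩ := exists_hasDerivAt_eq_zero hxy
        (f := fun z => P.eval z / (f 0).eval z)
        (fun z hz => (hder z (hIcc hz)).continuousAt.continuousWithinAt)
        (by rw [hS x hx, hS y hy, zero_div, zero_div])
        (fun z hz => hder z (hIcc (Set.Ioo_subset_Icc_self hz)))
      refine ⟨z, ?_, hz.1, hz.2⟩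
      have hzI : z ∈ I := hIcc (Set.Ioo_subset_Icc_self hz)
      rw [Finset.mem_filter, Multiset.mem_toFinset, mem_roots hQ, IsRoot.def]
      refine ⟨?_, hzI⟩
      have h1 := (div_eq_zero_iff.1 hz0).resolve_right (pow_ne_zero _ (hf0 z hzI))
      rw [← hPQ, eval_sub, eval_mul, eval_mul]
      linarith
    have h2 := card_lt_of_wr_ne_zero I hI g hg (fun i => c i.succ) hQ
      (Q.roots.toFinset.filter (· ∈ I)) (fun x hx => (Finset.mem_filter.1 hx).2) (fun x hx => by
        have h3 := (Finset.mem_filter.1 hx).1
        rw [Multiset.mem_toFinset, mem_roots hQ] at h3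
        exact h3)
    omega

end Pool.Agent.V8H75.Acit
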