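import Mathlib
import Pool.Agent.V8H75.Acit.Polya

/-!
# Real zeros of sums of products of powers: a bound which does not depend on the exponents
-/

namespace Pool.Agent.V8H75.Acit

open Polynomial

section Deriv

variable {F : Type*} [Field F]
variable {J : Type*}

theorem deriv_prod_pow (P : J → F[X]) (hP : ∀ j, P j ≠ 0) (e : J → ℕ) (s : Finset J) :
    ∃ A : F[X], A.natDegree ≤ (∏ j ∈ s, P j).natDegree ∧
      derivative (∏ j ∈ s, P j ^ e j) * ∏ j ∈ s, P j = (∏ j ∈ s, P j ^ e j) * A := by
  classical
  induction s using Finset.induction_on with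
  | empty => exact ⟨0, by simp, by simp⟩
  | insert a s ha ih =>
    obtain ⟨A, hA, hA'⟩ := ih
    have hs : ∏ j ∈ s, P j ≠ 0 := Finset.prod_ne_zero_iff.2 fun j _ => hP j
    refine ⟨(e a : F[X]) * derivative (P a) * (∏ j ∈ s, P j) + P a * A, ?_, ?_⟩
    · rw [Finset.prod_insert ha, natDegree_mul (hP a) hs]
      refine natDegree_add_le_of_degree_le ?_ ?_
      · refine natDegree_mul_le.trans (Nat.add_le_add_right ?_ _)
        refine natDegree_mul_le.trans ?_
        rw [natDegree_natCast, zero_add]
        exact (natDegree_derivative_le _).trans (Nat.sub_le _ _)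
      · exact natDegree_mul_le.trans (Nat.add_le_add_left hA _)
    · rw [Finset.prod_insert ha, Finset.prod_insert ha, derivative_mul, derivative_pow]
      rcases Nat.eq_zero_or_pos (e a) with h0 | h0
      · rw [h0]
        simp only [pow_zero, Nat.cast_zero, map_zero, zero_mul, one_mul, zero_add]
        calc derivative (∏ j ∈ s, P j ^ e j) * (P a * ∏ j ∈ s, P j)
            = P a * (derivative (∏ j ∈ s, P j ^ e j) * ∏ j ∈ s, P j) := by ring
          _ = P a * ((∏ j ∈ s, P j ^ e j) * A) := by rw [hA']
          _ = _ := by ring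
      · have h1 : P a ^ (e a - 1) * P a = P a ^ e a := by
          rw [← pow_succ, Nat.sub_add_cancel h0]
        have h2 : (C (e a : F) : F[X]) = (e a : F[X]) := C_eq_natCast _
        rw [h2]
        calc ((e a : F[X]) * P a ^ (e a - 1) * derivative (P a) * ∏ j ∈ s, P j ^ e j +
              P a ^ e a * derivative (∏ j ∈ s, P j ^ e j)) * (P a * ∏ j ∈ s, P j)
            = (e a : F[X]) * (P a ^ (e a - 1) * P a) * derivative (P a) *
                (∏ j ∈ s, P j ^ e j) * (∏ j ∈ s, P j) +
              P a ^ e a * P a * (derivative (∏ j ∈ s, P j ^ e j) * ∏ j ∈ s, P j) := by ring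
          _ = (e a : F[X]) * P a ^ e a * derivative (P a) *
                (∏ j ∈ s, P j ^ e j) * (∏ j ∈ s, P j) +
              P a ^ e a * P a * ((∏ j ∈ s, P j ^ e j) * A) := by rw [h1, hA']
          _ = _ := by ring

theorem iterate_deriv_prod_pow [Fintype J] (P : J → F[X]) (hP : ∀ j, P j ≠ 0) (e : J → ℕ) (l : ℕ) :
    ∃ A : F[X], A.natDegree ≤ l * (∏ j, P j).natDegree ∧
      derivative^[l] (∏ j, P j ^ e j) * (∏ j, P j) ^ l = (∏ j, P j ^ e j) * A := by
  obtain ⟨A1, hA1, hA1'⟩ := deriv_prod_pow P hP e Finset.univ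
  induction l with
  | zero => exact ⟨1, by simp, by simp⟩
  | succ l ih =>
    obtain ⟨A, hA, hA'⟩ := ih
    set PP := ∏ j, P j with hPP
    set T := ∏ j, P j ^ e j with hT
    refine ⟨A1 * A + PP * derivative A - (l : F[X]) * derivative PP * A, ?_, ?_⟩
    · refine (natDegree_sub_le_of_le (n := (l + 1) * PP.natDegree) (m := (l + 1) * PP.natDegree)
        (natDegree_add_le_of_degree_le ?_ ?_) ?_).trans (max_self _).le
      · calc (A1 * A).natDegree ≤ A1.natDegree + A.natDegree := natDegree_mul_le
          _ ≤ PP.natDegree + l * PP.natDegree := Nat.add_le_add hA1 hA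
          _ = (l + 1) * PP.natDegree := by ring
      · calc (PP * derivative A).natDegree ≤ PP.natDegree + (derivative A).natDegree :=
              natDegree_mul_le
          _ ≤ PP.natDegree + l * PP.natDegree :=
              Nat.add_le_add_left (((natDegree_derivative_le _).trans (Nat.sub_le _ _)).trans hA) _
          _ = (l + 1) * PP.natDegree := by ring
      · calc ((l : F[X]) * derivative PP * A).natDegree
            ≤ ((l : F[X]) * derivative PP).natDegree + A.natDegree := natDegree_mul_le
          _ ≤ (derivative PP).natDegree + l * PP.natDegree := by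
              refine Nat.add_le_add ?_ hA
              refine natDegree_mul_le.trans ?_
              rw [natDegree_natCast, zero_add]
          _ ≤ PP.natDegree + l * PP.natDegree :=
              Nat.add_le_add_right ((natDegree_derivative_le _).trans (Nat.sub_le _ _)) _
          _ = (l + 1) * PP.natDegree := by ring
    · have h1 := congrArg derivative hA'
      rw [derivative_mul, derivative_mul, ← Function.iterate_succ_apply' derivative,
        derivative_pow] at h1
      have h2 : derivative^[l + 1] T * PP ^ (l + 1) =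
          PP * (derivative^[l + 1] T * PP ^ l + derivative^[l] T *
            (C (l : F) * PP ^ (l - 1) * derivative PP)) -
            (l : F[X]) * derivative PP * (derivative^[l] T * PP ^ l) := by
        rw [C_eq_natCast]
        rcases Nat.eq_zero_or_pos l with h0 | h0
        · subst h0
          simp
          ring
        · have h3 : PP ^ (l - 1) * PP = PP ^ l := by rw [← pow_succ, Nat.sub_add_cancel h0]
          calc derivative^[l + 1] T * PP ^ (l + 1)
              = PP * (derivative^[l + 1] T * PP ^ l) +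
                  derivative^[l] T * (l : F[X]) * (PP ^ l) * derivative PP -
                (l : F[X]) * derivative PP * (derivative^[l] T * PP ^ l) := by ring
            _ = PP * (derivative^[l + 1] T * PP ^ l) +
                  derivative^[l] T * (l : F[X]) * (PP ^ (l - 1) * PP) * derivative PP -
                (l : F[X]) * derivative PP * (derivative^[l] T * PP ^ l) := by rw [h3]
            _ = _ := by ring
      rw [h2, h1, hA']
      calc PP * (derivative T * A + T * derivative A) - (l : F[X]) * derivative PP * (T * A)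
          = (derivative T * PP) * A + T * (PP * derivative A) -
              (l : F[X]) * derivative PP * (T * A) := by ring
        _ = (T * A1) * A + T * (PP * derivative A) - (l : F[X]) * derivative PP * (T * A) := by
            rw [hA1']
        _ = _ := by ring

theorem natDegree_det_le {k : ℕ} (A : Matrix (Fin k) (Fin k) F[X]) (N : ℕ)
    (hA : ∀ i l : Fin k, (A i l).natDegree ≤ (l : ℕ) * N) :
    A.det.natDegree ≤ k.choose 2 * N := by
  rw [Matrix.det_apply]
  refine natDegree_sum_le_of_forall_le _ _ fun σ _ => ?_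
  refine (natDegree_smul_le _ _).trans ?_
  refine (natDegree_prod_le _ _).trans ?_
  refine (Finset.sum_le_sum fun l _ => hA (σ l) l).trans ?_
  rw [← Finset.sum_mul]
  refine Nat.mul_le_mul_right _ (le_of_eq ?_)
  rw [Fin.sum_univ_eq_sum_range (fun l => l), Finset.sum_range_id, Nat.choose_two_right]

/-- The zeros of the Wronskian of products of powers. -/
theorem exists_wr_factor [Fintype J] {k : ℕ} (P : J → F[X]) (hP : ∀ j, P j ≠ 0)
    (e : Fin k → J → ℕ) (hwr : wr (fun i => ∏ j, P j ^ e i j) ≠ 0) :
    ∃ Q : F[X], Q ≠ 0 ∧ Q.natDegree ≤ k.choose 2 * (∏ j, P j).natDegree ∧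
      ∀ x, (∏ j, P j).eval x ≠ 0 → Q.eval x ≠ 0 → (wr (fun i => ∏ j, P j ^ e i j)).eval x ≠ 0 := by
  choose A hA hA' using fun (i : Fin k) (l : ℕ) => iterate_deriv_prod_pow P hP (e i) l
  set PP := ∏ j, P j with hPP
  have hPP0 : PP ≠ 0 := Finset.prod_ne_zero_iff.2 fun j _ => hP j
  have h1 : (∏ l : Fin k, PP ^ (l : ℕ)) * wr (fun i => ∏ j, P j ^ e i j) =
      (∏ i, ∏ j, P j ^ e i j) * (Matrix.of fun i l : Fin k => A i l).det := by
    rw [wr, ← Matrix.det_mul_row, ← Matrix.det_mul_column]
    congr 1
    ext1 i l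
    simp only [Matrix.of_apply]
    rw [mul_comm]
    exact hA' i l
  have h2 : (∏ l : Fin k, PP ^ (l : ℕ)) * wr (fun i => ∏ j, P j ^ e i j) ≠ 0 :=
    mul_ne_zero (Finset.prod_ne_zero_iff.2 fun l _ => pow_ne_zero _ hPP0) hwr
  refine ⟨(Matrix.of fun i l : Fin k => A i l).det, ?_, natDegree_det_le _ _ fun i l => hA i l, ?_⟩
  · intro h0
    rw [h0, mul_zero] at h1
    exact h2 h1
  · intro x hx hQ h0
    have h3 := congrArg (eval x) h1
    rw [eval_mul, eval_mul, h0, mul_zero] at h3
    rcases mul_eq_zero.1 h3.symm with h4 | h4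
    · rw [eval_prod, Finset.prod_eq_zero_iff] at h4
      obtain ⟨i, -, h5⟩ := h4
      rw [eval_prod, Finset.prod_eq_zero_iff] at h5
      obtain ⟨j, hj, h6⟩ := h5
      rw [eval_pow] at h6
      apply hx
      rw [hPP, eval_prod]
      refine Finset.prod_eq_zero hj ?_
      by_contra h7
      exact pow_ne_zero _ h7 h6
    · exact hQ h4

end Deriv

theorem sum_choose_two (k : ℕ) : ∑ p ∈ Finset.range (k + 1), p.choose 2 = (k + 1).choose 3 := by
  induction k with
  | zero => rfl
  | succ k ih =>
    rw [Finset.sum_range_succ, ih, Nat.choose_succ_succ (k + 1) 2, add_comm]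

variable {J : Type*} [Fintype J]

theorem card_zeros_indep {k : ℕ} (P : J → ℝ[X]) (hP : ∀ j, P j ≠ 0) (e : Fin k → J → ℕ)
    (hind : LinearIndependent ℝ (fun i => ∏ j, P j ^ e i j)) (c : Fin k → ℝ)
    (hF : ∑ i, c i • ∏ j, P j ^ e i j ≠ 0) (S : Finset ℝ)
    (hS : ∀ x ∈ S, (∑ i, c i • ∏ j, P j ^ e i j).eval x = 0) :
    S.card + 1 ≤ k * ((∏ j, P j).natDegree * (1 + (k + 1).choose 3) + 1) := by
  classical
  set N := (∏ j, P j).natDegree with hN
  have hPP : ∏ j, P j ≠ 0 := Finset.prod_ne_zero_iff.2 fun j _ => hP j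
  have hwr : ∀ (p : ℕ) (hp : p ≤ k), wr (fun i : Fin p => ∏ j, P j ^ e (Fin.castLE hp i) j) ≠ 0 :=
    fun p hp => wr_ne_zero _ (hind.comp _ (Fin.castLE_injective hp))
  choose Q hQ0 hQdeg hQ using fun (p : ℕ) (hp : p ≤ k) =>
    exists_wr_factor P hP (fun i : Fin p => e (Fin.castLE hp i)) (hwr p hp)
  let cut : Finset ℝ := (∏ j, P j).roots.toFinset ∪
    (Finset.range (k + 1)).biUnion fun p => if h : p ≤ k then (Q p h).roots.toFinset else ∅
  have hcut : cut.card ≤ N * (1 + (k + 1).choose 3) := by
    refine (Finset.card_union_le _ _).trans ?_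
    rw [mul_add, mul_one]
    refine Nat.add_le_add ?_ ?_
    · exact (Multiset.toFinset_card_le _).trans (card_roots' _)
    · refine Finset.card_biUnion_le.trans ?_
      rw [← sum_choose_two, Finset.mul_sum]
      refine Finset.sum_le_sum fun p hp => ?_
      have hp' : p ≤ k := Nat.lt_succ_iff.1 (Finset.mem_range.1 hp)
      rw [dif_pos hp', mul_comm]
      exact ((Multiset.toFinset_card_le _).trans (card_roots' _)).trans (hQdeg p hp')
  have hk : 0 < k := by
    rcases Nat.eq_zero_or_pos k with h | h
    · subst h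
      exact absurd (by simp) hF
    · exact h
  let ν : ℝ → ℕ := fun x => (cut.filter (· < x)).card
  have hν : ∀ x y, x ≤ y → ν x ≤ ν y := fun x y hxy =>
    Finset.card_le_card (Finset.monotone_filter_right _ fun z _ hz => lt_of_lt_of_le hz hxy)
  let I : ℕ → Set ℝ := fun v => {x | x ∉ cut ∧ ν x = v}
  have hI : ∀ v, (I v).OrdConnected := by
    intro v
    constructor
    rintro x ⟨hx, hxv⟩ y ⟨hy, hyv⟩ z ⟨hxz, hzy⟩
    have h1 : ν z = v := le_antisymm (hyv ▸ hν z y hzy) (hxv ▸ hν x z hxz)
    refine ⟨fun hz => ?_, h1⟩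
    have h2 : ν z < ν y := by
      refine Finset.card_lt_card ?_
      rw [Finset.ssubset_iff_of_subset]
      · refine ⟨z, ?_, ?_⟩
        · rw [Finset.mem_filter]
          refine ⟨hz, lt_of_le_of_ne hzy ?_⟩
          rintro rfl
          exact hy hz
        · rw [Finset.mem_filter]
          exact fun h => lt_irrefl _ h.2
      · exact Finset.monotone_filter_right _ fun w _ hw => lt_of_lt_of_le hw hzy
    omega
  have hwrI : ∀ v, ∀ (p : ℕ) (hp : p ≤ k), ∀ x ∈ I v,
      (wr fun i : Fin p => (fun i : Fin k => ∏ j, P j ^ e i j) (Fin.castLE hp i)).eval x ≠ 0 := by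
    intro v p hp x hx
    refine hQ p hp x ?_ ?_
    · intro h0
      apply hx.1
      refine Finset.mem_union_left _ ?_
      rw [Multiset.mem_toFinset, mem_roots hPP]
      exact h0
    · intro h0
      apply hx.1
      refine Finset.mem_union_right _ ?_
      rw [Finset.mem_biUnion]
      refine ⟨p, Finset.mem_range.2 (Nat.lt_succ_of_le hp), ?_⟩
      rw [dif_pos hp, Multiset.mem_toFinset, mem_roots (hQ0 p hp)]
      exact h0
  have h1 : (S \ cut).card ≤ (k - 1) * (Finset.range (cut.card + 1)).card := by
    refine Finset.card_le_mul_card_image_of_maps_to (f := ν) ?_ _ ?_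
    · intro x _
      rw [Finset.mem_range, Nat.lt_succ_iff]
      exact Finset.card_filter_le _ _
    · intro v _
      have h2 := card_lt_of_wr_ne_zero (I v) (hI v) (fun i : Fin k => ∏ j, P j ^ e i j)
        (hwrI v) c hF ((S \ cut).filter fun x => ν x = v) (fun x hx => by
          have h3 := Finset.mem_filter.1 (Finset.mem_coe.1 hx)
          exact ⟨(Finset.mem_sdiff.1 h3.1).2, h3.2⟩) (fun x hx =>
          hS x (Finset.mem_sdiff.1 (Finset.mem_filter.1 hx).1).1)
      omega
  have h2 : S.card ≤ (S \ cut).card + cut.card := by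
    have := Finset.card_sdiff_add_card_inter S cut
    have h3 := Finset.card_le_card (Finset.inter_subset_right : S ∩ cut ⊆ cut)
    omega
  rw [Finset.card_range] at h1
  obtain ⟨k, rfl⟩ : ∃ k', k = k' + 1 := ⟨k - 1, by omega⟩
  simp only [Nat.add_sub_cancel] at h1
  calc S.card + 1 ≤ k * (cut.card + 1) + cut.card + 1 := by omega
    _ = (k + 1) * (cut.card + 1) := by ring
    _ ≤ _ := Nat.mul_le_mul_left _ (Nat.add_le_add_right hcut _)

/-- The number of points which detect a nonzero sum of `t` products of powers of polynomials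
of total degree `N`. -/
def nz (t N : ℕ) : ℕ := t * (N * (1 + (t + 1).choose 3) + 1)

theorem nz_mono {t t' N N' : ℕ} (ht : t ≤ t') (hN : N ≤ N') : nz t N ≤ nz t' N' :=
  Nat.mul_le_mul ht (Nat.add_le_add_right (Nat.mul_le_mul hN
    (Nat.add_le_add_left (Nat.choose_le_choose 3 (Nat.add_le_add_right ht 1)) 1)) 1)

/-- **Real zeros of sums of products of powers.** -/
theorem card_zeros_lt {t : ℕ} (P : J → ℝ[X]) (N : ℕ) (hN : ∑ j, (P j).natDegree ≤ N)
    (e : Fin t → J → ℕ) (c : Fin t → ℝ) (hF : ∑ i, c i • ∏ j, P j ^ e i j ≠ 0) (S : Finset ℝ)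
    (hS : ∀ x ∈ S, (∑ i, c i • ∏ j, P j ^ e i j).eval x = 0) : S.card < nz t N := by
  classical
  let P' : J → ℝ[X] := fun j => if P j = 0 then 1 else P j
  have hP' : ∀ j, P' j ≠ 0 := by
    intro j
    simp only [P']
    split_ifs with h
    · exact one_ne_zero
    · exact h
  let c' : Fin t → ℝ := fun i => if ∃ j, P j = 0 ∧ e i j ≠ 0 then 0 else c i
  have hterm : ∀ i, c' i • ∏ j, P' j ^ e i j = c i • ∏ j, P j ^ e i j := by
    intro i
    by_cases h : ∃ j, P j = 0 ∧ e i j ≠ 0
    · have h1 : ∏ j, P j ^ e i j = 0 := by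
        obtain ⟨j, hj, hj'⟩ := h
        refine Finset.prod_eq_zero (Finset.mem_univ j) ?_
        rw [hj, zero_pow hj']
      simp only [c', if_pos h, zero_smul, h1, smul_zero]
    · simp only [c', if_neg h]
      congr 1
      refine Finset.prod_congr rfl fun j _ => ?_
      simp only [P']
      split_ifs with h1
      · push Not at h
        rw [h j h1, pow_zero, pow_zero]
      · rfl
  have hsum : ∑ i, c i • ∏ j, P j ^ e i j = ∑ i, c' i • ∏ j, P' j ^ e i j :=
    Finset.sum_congr rfl fun i _ => (hterm i).symm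
  have hN' : (∏ j, P' j).natDegree ≤ N := by
    refine (natDegree_prod_le _ _).trans ((Finset.sum_le_sum fun j _ => ?_).trans hN)
    simp only [P']
    split_ifs with h
    · simp
    · exact le_rfl
  obtain ⟨κ, a, ha, hspan, hli⟩ := exists_linearIndependent' ℝ (fun i => ∏ j, P' j ^ e i j)
  have hκ : Finite κ := Finite.of_injective a ha
  have := Fintype.ofFinite κ
  let E := Fintype.equivFin κ
  set k := Fintype.card κ with hk
  have hkt : k ≤ t := by
    have := Fintype.card_le_of_injective a ha
    rwa [Fintype.card_fin] at this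
  have hmem : ∑ i, c' i • ∏ j, P' j ^ e i j ∈
      Submodule.span ℝ (Set.range ((fun i => ∏ j, P' j ^ e i j) ∘ a)) := by
    rw [hspan]
    exact Submodule.sum_mem _ fun i _ => Submodule.smul_mem _ _ (Submodule.subset_span ⟨i, rfl⟩)
  obtain ⟨d, hd⟩ := (Submodule.mem_span_range_iff_exists_fun ℝ).1 hmem
  have hd' : ∑ i : Fin k, d (E.symm i) • ∏ j, P' j ^ e (a (E.symm i)) j =
      ∑ i, c i • ∏ j, P j ^ e i j := by
    rw [hsum, ← hd]
    exact Equiv.sum_comp E.symm fun x => d x • ((fun i => ∏ j, P' j ^ e i j) ∘ a) x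
  have h1 := card_zeros_indep (k := k) P' hP' (fun i => e (a (E.symm i)))
    (hli.comp _ E.symm.injective) (fun i => d (E.symm i)) (by rw [hd']; exact hF) S
    (fun x hx => by rw [hd']; exact hS x hx)
  exact lt_of_lt_of_le h1 (nz_mono hkt hN')

end Pool.Agent.V8H75.Acit
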