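import Mathlib
import Pool.Agent.V8H75.Acit.Point
import Pool.Agent.V8H75.Acit.Zeros

/-!
# Hitting sets for sums of products of powers of affine forms
-/

namespace Pool.Agent.V8H75.Acit

open MvPolynomial

universe uK

variable {K : Type uK} [Field K]

/-- **Nonvanishing at a point of the condenser.** -/
theorem exists_point [CharZero K] {n m t r : ℕ} (a : Fin m → Fin n → K) (b : Fin m → K)
    (c : Fin t → K) (e : Fin t → Fin m → ℕ) (hr : affRank e ≤ r)
    (hF : ∑ i, C (c i) * ∏ j, aff (a j) (b j) ^ e i j ≠ 0) :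
    ∃ (c₀ : K) (z : Fin r → K),
      eval (ptK n r c₀ z) (∑ i, C (c i) * ∏ j, aff (a j) (b j) ^ e i j) ≠ 0 := by
  classical
  let Z : Fin m → Prop := fun j => (Fin.cons (b j) (a j) : Fin (n + 1) → K) = 0
  have hZ : ∀ j, Z j → aff (a j) (b j) = 0 := by
    intro j hj
    have h1 : b j = 0 := by
      have := congrFun hj 0
      simpa using this
    have h2 : ∀ i, a j i = 0 := by
      intro i
      have := congrFun hj i.succ
      simpa using this
    simp [aff, h1, h2]
  let b' : Fin m → K := fun j => if Z j then 1 else b j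
  let c' : Fin t → K := fun i => if ∃ j, Z j ∧ e i j ≠ 0 then 0 else c i
  have hterm : ∀ i, C (c' i) * ∏ j, aff (a j) (b' j) ^ e i j =
      C (c i) * ∏ j, aff (a j) (b j) ^ e i j := by
    intro i
    by_cases h : ∃ j, Z j ∧ e i j ≠ 0
    · have h1 : ∏ j, aff (a j) (b j) ^ e i j = 0 := by
        obtain ⟨j, hj, hj'⟩ := h
        refine Finset.prod_eq_zero (Finset.mem_univ j) ?_
        rw [hZ j hj, zero_pow hj']
      simp only [c', if_pos h, C_0, zero_mul, h1, mul_zero]
    · simp only [c', if_neg h]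
      congr 1
      refine Finset.prod_congr rfl fun j _ => ?_
      by_cases h1 : Z j
      · push Not at h
        rw [h j h1, pow_zero, pow_zero]
      · simp only [b', if_neg h1]
  have hsum : ∑ i, C (c' i) * ∏ j, aff (a j) (b' j) ^ e i j =
      ∑ i, C (c i) * ∏ j, aff (a j) (b j) ^ e i j := Finset.sum_congr rfl fun i _ => hterm i
  rw [← hsum] at hF ⊢
  refine exists_point_aux a b' (fun j hj => ?_) c' e hr hF
  by_cases h1 : Z j
  · have h2 := congrFun hj 0
    simp only [b', if_pos h1, Fin.cons_zero, Pi.zero_apply] at h2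
    exact one_ne_zero h2
  · simp only [b', if_neg h1] at hj
    exact h1 hj

/-- Replacing the coordinates one after the other. -/
theorem exists_update {r : ℕ} (g : (Fin r → K) → Prop) (N : ℕ)
    (hg : ∀ (b : Fin r) (x : Fin r → K), g x → ∃ k < N, g (Function.update x b (k : K)))
    (x0 : Fin r → K) (h0 : g x0) : ∃ z : Fin r → ℕ, (∀ b, z b < N) ∧ g fun b => (z b : K) := by
  classical
  have h1 : ∀ s : Finset (Fin r), ∃ x, g x ∧ ∀ b ∈ s, ∃ k < N, x b = (k : K) := by
    intro s
    induction s using Finset.induction_on with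
    | empty => exact ⟨x0, h0, by simp⟩
    | insert b s hb ih =>
      obtain ⟨x, hx, hxs⟩ := ih
      obtain ⟨k, hk, hgk⟩ := hg b x hx
      refine ⟨_, hgk, fun b' hb' => ?_⟩
      by_cases hbb : b' = b
      · subst hbb
        exact ⟨k, hk, Function.update_self _ _ _⟩
      · obtain ⟨k', hk', h2⟩ := hxs b' ((Finset.mem_insert.1 hb').resolve_left hbb)
        exact ⟨k', hk', by rw [Function.update_of_ne hbb]; exact h2⟩
  obtain ⟨x, hx, hxs⟩ := h1 Finset.univ
  choose z hz hz' using fun b => hxs b (Finset.mem_univ b)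
  exact ⟨z, hz, by rwa [← funext hz']⟩

/-- The points with natural coordinates. -/
def pt (n r : ℕ) (c : ℕ) (z : Fin r → ℕ) : Fin n → ℕ := fun i =>
  c ^ ((i : ℕ) + 1) * (1 + ∑ b : Fin r, z b * (((b : ℕ) + 2) ^ ((i : ℕ) + 1) - 1))

theorem cast_pt (n r c : ℕ) (z : Fin r → ℕ) :
    (fun i => (pt n r c z i : K)) = ptK n r (c : K) (fun b => (z b : K)) := by
  funext i
  simp only [pt, ptK]
  push_cast
  congr 2
  refine Finset.sum_congr rfl fun b _ => ?_
  rw [Nat.cast_sub (Nat.one_le_pow _ _ (by omega))]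
  push_cast
  rfl

/-- The set of all these points with `c < A` and `z b < B`. -/
def points (n r A B : ℕ) : Finset (Fin n → ℕ) :=
  (Finset.range A ×ˢ Fintype.piFinset fun _ : Fin r => Finset.range B).image
    fun x => pt n r x.1 x.2

theorem card_points_le (n r A B : ℕ) : (points n r A B).card ≤ A * B ^ r := by
  refine Finset.card_image_le.trans ?_
  rw [Finset.card_product, Fintype.card_piFinset]
  simp

/-- The curve through the points when one of the parameters moves. -/
theorem eval_eval_aeval {n : ℕ} (X' : Fin n → Polynomial K) (τ : K) (F : MvPolynomial (Fin n) K) :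
    (aeval X' F).eval τ = eval (fun i => (X' i).eval τ) F := by
  induction F using MvPolynomial.induction_on with
  | C a => simp
  | add p q hp hq => simp [hp, hq]
  | mul_X p i hp => simp [hp]

theorem natDegree_aeval_le {n : ℕ} (X' : Fin n → Polynomial K) (δ : ℕ)
    (hX : ∀ i, (X' i).natDegree ≤ δ) (F : MvPolynomial (Fin n) K) :
    (aeval X' F).natDegree ≤ δ * F.totalDegree := by
  rw [aeval_def, eval₂_eq']
  refine Polynomial.natDegree_sum_le_of_forall_le _ _ fun s hs => ?_
  refine (Polynomial.natDegree_mul_le).trans ?_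
  have h1 : ((algebraMap K (Polynomial K)) (coeff s F)).natDegree = 0 :=
    Polynomial.natDegree_C _
  rw [h1, zero_add]
  refine (Polynomial.natDegree_prod_le _ _).trans ?_
  refine (Finset.sum_le_sum fun i _ => (Polynomial.natDegree_pow_le).trans
    (Nat.mul_le_mul_left (s i) (hX i))).trans ?_
  rw [← Finset.sum_mul, mul_comm]
  refine Nat.mul_le_mul_left _ ?_
  have h2 := le_totalDegree hs
  rwa [Finsupp.sum_fintype _ _ (fun _ => rfl)] at h2

/-- A set of naturals detecting univariate polynomials of bounded degree. -/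
theorem exists_eval_ne_zero_of_natDegree [CharZero K] (p : Polynomial K) (hp : p ≠ 0) (N : ℕ)
    (hN : p.natDegree < N) : ∃ k < N, p.eval (k : K) ≠ 0 := by
  classical
  by_contra hcon
  push Not at hcon
  have h1 : ((Finset.range N).image fun k : ℕ => (k : K)) ⊆ p.roots.toFinset := by
    intro x hx
    obtain ⟨k, hk, rfl⟩ := Finset.mem_image.1 hx
    rw [Multiset.mem_toFinset, Polynomial.mem_roots hp]
    exact hcon k (Finset.mem_range.1 hk)
  have h2 := (Finset.card_le_card h1).trans
    ((Multiset.toFinset_card_le _).trans (Polynomial.card_roots' _))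
  rw [Finset.card_image_of_injective _ Nat.cast_injective, Finset.card_range] at h2
  omega

/-- The moving coordinates: the parameter `z b`. -/
noncomputable def curveZ (n r : ℕ) (c : K) (z : Fin r → K) (b : Fin r) : Fin n → Polynomial K :=
  fun i => Polynomial.C (c ^ ((i : ℕ) + 1)) * (Polynomial.C (1 + ∑ b' ∈ Finset.univ.erase b,
    z b' * ((((b' : ℕ) + 2 : ℕ) : K) ^ ((i : ℕ) + 1) - 1)) +
    Polynomial.X * Polynomial.C ((((b : ℕ) + 2 : ℕ) : K) ^ ((i : ℕ) + 1) - 1))

theorem eval_curveZ (n r : ℕ) (c : K) (z : Fin r → K) (b : Fin r) (τ : K) :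
    (fun i => (curveZ n r c z b i).eval τ) = ptK n r c (Function.update z b τ) := by
  classical
  funext i
  simp only [curveZ, ptK, Polynomial.eval_mul, Polynomial.eval_add, Polynomial.eval_C,
    Polynomial.eval_X]
  rw [← Finset.add_sum_erase Finset.univ _ (Finset.mem_univ b), Function.update_self, add_assoc]
  congr 2
  rw [add_comm]
  congr 1
  refine Finset.sum_congr rfl fun b' hb' => ?_
  rw [Function.update_of_ne (Finset.ne_of_mem_erase hb')]

theorem natDegree_curveZ (n r : ℕ) (c : K) (z : Fin r → K) (b : Fin r) (i : Fin n) :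
    (curveZ n r c z b i).natDegree ≤ 1 := by
  refine (Polynomial.natDegree_C_mul_le _ _).trans ?_
  refine Polynomial.natDegree_add_le_of_degree_le (by rw [Polynomial.natDegree_C]; exact zero_le)
    ?_
  exact (Polynomial.natDegree_mul_C_le _ _).trans Polynomial.natDegree_X_le

/-- The moving coordinates: the parameter `c`. -/
noncomputable def curveC (n r : ℕ) (z : Fin r → K) : Fin n → Polynomial K :=
  fun i => Polynomial.X ^ ((i : ℕ) + 1) * Polynomial.C (1 + ∑ b : Fin r,
    z b * ((((b : ℕ) + 2 : ℕ) : K) ^ ((i : ℕ) + 1) - 1))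

theorem eval_curveC (n r : ℕ) (z : Fin r → K) (τ : K) :
    (fun i => (curveC n r z i).eval τ) = ptK n r τ z := by
  funext i
  simp only [curveC, ptK, Polynomial.eval_mul, Polynomial.eval_pow, Polynomial.eval_C,
    Polynomial.eval_X]

theorem natDegree_curveC (n r : ℕ) (z : Fin r → K) (i : Fin n) :
    (curveC n r z i).natDegree ≤ n := by
  refine (Polynomial.natDegree_mul_C_le _ _).trans ?_
  rw [Polynomial.natDegree_X_pow]
  exact i.2

/-- General principle. -/
theorem hit [CharZero K] {n r : ℕ} (F : MvPolynomial (Fin n) K) (A B : ℕ)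
    (hA : ∀ z : Fin r → K, aeval (curveC n r z) F ≠ 0 →
      ∃ k < A, (aeval (curveC n r z) F).eval (k : K) ≠ 0)
    (hB : ∀ (c : K) (z : Fin r → K) (b : Fin r), aeval (curveZ n r c z b) F ≠ 0 →
      ∃ k < B, (aeval (curveZ n r c z b) F).eval (k : K) ≠ 0)
    (hF : ∃ (c₀ : K) (z : Fin r → K), eval (ptK n r c₀ z) F ≠ 0) :
    ∃ x ∈ points n r A B, eval (fun i => (x i : K)) F ≠ 0 := by
  classical
  obtain ⟨c₀, z₀, h0⟩ := hF
  obtain ⟨z, hz, hz'⟩ := exists_update (fun z => eval (ptK n r c₀ z) F ≠ 0) B (by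
    intro b x hx
    have h1 : aeval (curveZ n r c₀ x b) F ≠ 0 := by
      intro h2
      apply hx
      have h3 := eval_eval_aeval (curveZ n r c₀ x b) (x b) F
      rw [h2, Polynomial.eval_zero, eval_curveZ, Function.update_eq_self] at h3
      exact h3.symm
    obtain ⟨k, hk, hk'⟩ := hB c₀ x b h1
    refine ⟨k, hk, ?_⟩
    rw [eval_eval_aeval, eval_curveZ] at hk'
    exact hk') z₀ h0
  have h1 : aeval (curveC n r fun b => (z b : K)) F ≠ 0 := by
    intro h2
    apply hz'
    have h3 := eval_eval_aeval (curveC n r fun b => (z b : K)) c₀ F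
    rw [h2, Polynomial.eval_zero, eval_curveC] at h3
    exact h3.symm
  obtain ⟨k, hk, hk'⟩ := hA _ h1
  refine ⟨pt n r k z, ?_, ?_⟩
  · refine Finset.mem_image.2 ⟨(k, z), ?_, rfl⟩
    rw [Finset.mem_product, Fintype.mem_piFinset]
    exact ⟨Finset.mem_range.2 hk, fun b => Finset.mem_range.2 (hz b)⟩
  · rw [cast_pt]
    rw [eval_eval_aeval, eval_curveC] at hk'
    exact hk'

/-- **Hitting set for bounded degree**, over any field of characteristic zero. -/
theorem hit_degree [CharZero K] {n m t r : ℕ} (a : Fin m → Fin n → K) (b : Fin m → K)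
    (c : Fin t → K) (e : Fin t → Fin m → ℕ) (hr : affRank e ≤ r) (D : ℕ)
    (hD : (∑ i, C (c i) * ∏ j, aff (a j) (b j) ^ e i j).totalDegree ≤ D)
    (hF : ∑ i, C (c i) * ∏ j, aff (a j) (b j) ^ e i j ≠ 0) :
    ∃ x ∈ points n r (n * D + 1) (D + 1),
      eval (fun i => (x i : K)) (∑ i, C (c i) * ∏ j, aff (a j) (b j) ^ e i j) ≠ 0 := by
  refine hit _ _ _ (fun z hz => ?_) (fun c z b hz => ?_) (exists_point a b c e hr hF)
  · refine exists_eval_ne_zero_of_natDegree _ hz _ (Nat.lt_succ_of_le ?_)
    exact (natDegree_aeval_le _ n (natDegree_curveC n r z) _).trans (Nat.mul_le_mul_left _ hD)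
  · refine exists_eval_ne_zero_of_natDegree _ hz _ (Nat.lt_succ_of_le ?_)
    refine (natDegree_aeval_le _ 1 (natDegree_curveZ n r c z b) _).trans ?_
    rw [one_mul]
    exact hD

/-- Detection of real univariate sums of products of powers. -/
theorem exists_eval_ne_zero_real {n m t : ℕ} (a : Fin m → Fin n → ℝ) (b : Fin m → ℝ)
    (c : Fin t → ℝ) (e : Fin t → Fin m → ℕ) (X' : Fin n → Polynomial ℝ) (δ : ℕ)
    (hX : ∀ i, (X' i).natDegree ≤ δ)
    (h0 : aeval X' (∑ i, C (c i) * ∏ j, aff (a j) (b j) ^ e i j) ≠ 0) :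
    ∃ k < nz t (m * δ),
      (aeval X' (∑ i, C (c i) * ∏ j, aff (a j) (b j) ^ e i j)).eval (k : ℝ) ≠ 0 := by
  classical
  have h1 : aeval X' (∑ i, C (c i) * ∏ j, aff (a j) (b j) ^ e i j) =
      ∑ i, c i • ∏ j, (aeval X' (aff (a j) (b j))) ^ e i j := by
    rw [map_sum]
    refine Finset.sum_congr rfl fun i _ => ?_
    rw [map_mul, map_prod, algHom_C, Algebra.smul_def]
    simp only [map_pow]
  have hdeg : ∑ j, (aeval X' (aff (a j) (b j))).natDegree ≤ m * δ := by
    have h2 : ∀ j, (aeval X' (aff (a j) (b j))).natDegree ≤ δ := by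
      intro j
      rw [aff, map_add, map_sum]
      refine Polynomial.natDegree_add_le_of_degree_le ?_ ?_
      · rw [algHom_C]
        exact (Polynomial.natDegree_C _).le.trans zero_le
      · refine Polynomial.natDegree_sum_le_of_forall_le _ _ fun i _ => ?_
        rw [map_mul, algHom_C, aeval_X]
        exact (Polynomial.natDegree_C_mul_le _ _).trans (hX i)
    refine (Finset.sum_le_sum fun j _ => h2 j).trans ?_
    simp
  rw [h1] at h0 ⊢
  by_contra hcon
  push Not at hcon
  have h2 := card_zeros_lt (fun j => aeval X' (aff (a j) (b j))) (m * δ) hdeg e c h0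
    ((Finset.range (nz t (m * δ))).image fun k : ℕ => (k : ℝ)) (fun x hx => by
      obtain ⟨k, hk, rfl⟩ := Finset.mem_image.1 hx
      exact hcon k (Finset.mem_range.1 hk))
  rw [Finset.card_image_of_injective _ Nat.cast_injective, Finset.card_range] at h2
  exact lt_irrefl _ h2

/-- **Real coefficients: a hitting set which does not depend on the exponents.** -/
theorem hit_real {n m t r : ℕ} (a : Fin m → Fin n → ℝ) (b : Fin m → ℝ)
    (c : Fin t → ℝ) (e : Fin t → Fin m → ℕ) (hr : affRank e ≤ r)
    (hF : ∑ i, C (c i) * ∏ j, aff (a j) (b j) ^ e i j ≠ 0) :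
    ∃ x ∈ points n r (nz t (m * n)) (nz t m),
      eval (fun i => (x i : ℝ)) (∑ i, C (c i) * ∏ j, aff (a j) (b j) ^ e i j) ≠ 0 := by
  refine hit _ _ _ (fun z hz => ?_) (fun c₀ z b' hz => ?_) (exists_point a b c e hr hF)
  · exact exists_eval_ne_zero_real a b c e _ n (natDegree_curveC n r z) hz
  · have := exists_eval_ne_zero_real a b c e _ 1 (natDegree_curveZ n r c₀ z b') hz
    rwa [mul_one] at this

end Pool.Agent.V8H75.Acit
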