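import Mathlib
import Pool.Agent.V8H75.Acit.Grid
import Pool.Agent.V8H37.Pow.Cluster

/-!
# Exponents in binary

The reduction of the exponents is due to helper37 (`Pool/Agent/V8H37/Pow`).
-/

namespace Pool.Agent.V8H75.Acit

open MvPolynomial Pool.Agent.V8H37.Pow

universe uK

variable {K : Type uK} [Field K]

theorem totalDegree_aff_le {n : ℕ} (a : Fin n → K) (b : K) : (aff a b).totalDegree ≤ 1 := by
  rw [aff]
  refine (totalDegree_add _ _).trans (max_le ?_ ?_)
  · rw [totalDegree_C]
    exact zero_le
  · refine totalDegree_finsetSum_le fun i _ => ?_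
    refine (totalDegree_mul _ _).trans ?_
    rw [totalDegree_C, totalDegree_X]

theorem coeff_aff_single {n : ℕ} (a : Fin n → K) (b : K) (i : Fin n) :
    coeff (Finsupp.single i 1) (aff a b) = a i := by
  rw [aff, coeff_add, coeff_C, if_neg, zero_add, coeff_sum, Finset.sum_eq_single i]
  · simp [coeff_C_mul]
  · intro j _ hj
    rw [coeff_C_mul, coeff_X, if_neg, mul_zero]
    intro h
    exact hj (Finsupp.single_left_injective one_ne_zero h)
  · intro h
    exact absurd (Finset.mem_univ _) h
  · intro h
    have := DFunLike.congr_fun h i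
    simp at this

theorem coeff_aff_zero {n : ℕ} (a : Fin n → K) (b : K) : coeff 0 (aff a b) = b := by
  rw [aff, coeff_add, coeff_C, if_pos rfl, coeff_sum, Finset.sum_eq_zero, add_zero]
  intro j _
  rw [coeff_C_mul, coeff_X, if_neg, mul_zero]
  intro h
  have := DFunLike.congr_fun h j
  simp at this

theorem totalDegree_aff {n : ℕ} (a : Fin n → K) (b : K) (ha : a ≠ 0) :
    (aff a b).totalDegree = 1 := by
  refine le_antisymm (totalDegree_aff_le a b) ?_
  obtain ⟨i, hi⟩ := Function.ne_iff.1 ha
  have h1 : Finsupp.single i 1 ∈ (aff a b).support := by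
    rw [mem_support_iff, coeff_aff_single]
    exact hi
  have h2 := le_totalDegree h1
  rwa [Finsupp.sum_single_index rfl] at h2

theorem irreducible_aff {n : ℕ} (a : Fin n → K) (b : K) (ha : a ≠ 0) : Irreducible (aff a b) := by
  have h1 := totalDegree_aff a b ha
  have hne : aff a b ≠ 0 := by
    intro h
    rw [h, totalDegree_zero] at h1
    omega
  have hunit : ∀ p : MvPolynomial (Fin n) K, p ≠ 0 → p.totalDegree = 0 → IsUnit p := by
    intro p hp hd
    rw [totalDegree_eq_zero_iff_eq_C] at hd
    rw [hd]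
    refine (IsUnit.mk0 _ ?_).map C
    intro h0
    apply hp
    rw [hd, h0, C_0]
  refine ⟨fun hu => ?_, fun p q hpq => ?_⟩
  · obtain ⟨c, hc, hc'⟩ := (MvPolynomial.isUnit_iff_eq_C_of_isReduced).1 hu
    rw [hc', totalDegree_C] at h1
    omega
  · have hp : p ≠ 0 := by
      rintro rfl
      exact hne (by rw [hpq, zero_mul])
    have hq : q ≠ 0 := by
      rintro rfl
      exact hne (by rw [hpq, mul_zero])
    have h2 : p.totalDegree + q.totalDegree = 1 := by
      rw [← h1, hpq, totalDegree_mul_of_isDomain hp hq]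
    rcases Nat.eq_zero_or_pos p.totalDegree with h3 | h3
    · exact Or.inl (hunit p hp h3)
    · exact Or.inr (hunit q hq (by omega))

theorem isRelPrime_aff {n : ℕ} (a a' : Fin n → K) (b b' : K) (ha : a ≠ 0) (ha' : a' ≠ 0)
    (h : ∀ s : K, ¬ (a' = s • a ∧ b' = s * b)) : IsRelPrime (aff a b) (aff a' b') := by
  rw [(irreducible_aff a b ha).isRelPrime_iff_not_dvd]
  rintro ⟨q, hq⟩
  have h1 := totalDegree_aff a b ha
  have h1' := totalDegree_aff a' b' ha'
  have hne' : aff a' b' ≠ 0 := (irreducible_aff a' b' ha').ne_zero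
  have hne : aff a b ≠ 0 := (irreducible_aff a b ha).ne_zero
  have hq0 : q ≠ 0 := by
    rintro rfl
    exact hne' (by rw [hq, mul_zero])
  have h2 : q.totalDegree = 0 := by
    rw [hq, totalDegree_mul_of_isDomain hne hq0] at h1'
    omega
  rw [totalDegree_eq_zero_iff_eq_C] at h2
  rw [h2, mul_comm] at hq
  refine h (coeff 0 q) ⟨?_, ?_⟩
  · funext i
    have h3 := congrArg (coeff (Finsupp.single i 1)) hq
    rw [coeff_C_mul, coeff_aff_single, coeff_aff_single] at h3
    exact h3
  · have h3 := congrArg (coeff 0) hq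
    rw [coeff_C_mul, coeff_aff_zero, coeff_aff_zero] at h3
    exact h3

/-- **Exponents in binary.** -/
theorem binary [CharZero K] {n m t r : ℕ} (a : Fin m → Fin n → K) (b : Fin m → K)
    (ha : ∀ j, a j ≠ 0) (hab : ∀ j j', j ≠ j' → ∀ s : K, ¬ (a j' = s • a j ∧ b j' = s * b j))
    (c : Fin t → K) (e : Fin t → Fin m → ℕ) (hr : affRank e ≤ r) :
    let B := (t - 1) * (t - 2) / 2 * m
    let M := (t - 1) * B * m
    (∑ i, C (c i) * ∏ j, aff (a j) (b j) ^ e i j = 0 ↔
      ∀ i, ∀ x ∈ points n r (n * M + 1) (M + 1), ∑ i' ∈ cluster B e i, c i' *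
        ∏ j, (b j + ∑ l, a j l * (x l : K)) ^ (e i' j - low B e i j) = 0) ∧
    ∀ i, ∀ i' ∈ cluster B e i, ∀ j, e i' j - low B e i j ≤ (t - 1) * B := by
  classical
  intro B M
  refine ⟨?_, fun i i' hi' j => sub_low_le B e i i' hi' j⟩
  have hgap : gap (fun j => aff (a j) (b j)) (fun i : Fin t => (C (c i) : MvPolynomial (Fin n) K)) =
      B := by
    rw [gap]
    simp only [totalDegree_C, Finset.sum_const_zero, add_zero]
    rw [Finset.sum_congr rfl fun j _ => totalDegree_aff (a j) (b j) (ha j)]
    simp [B]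
  have h1 := splitting (fun j => aff (a j) (b j))
    (fun j => (totalDegree_aff (a j) (b j) (ha j)).ge)
    (fun j j' h => isRelPrime_aff _ _ _ _ (ha j) (ha j') (hab j j' h))
    (fun i : Fin t => (C (c i) : MvPolynomial (Fin n) K)) e
  rw [hgap] at h1
  refine h1.trans (forall_congr' fun i => ?_)
  -- the value of the reduced sum
  have heval : ∀ x : Fin n → ℕ, eval (fun l => (x l : K))
      (reduced B (fun j => aff (a j) (b j)) (fun i : Fin t => (C (c i) : MvPolynomial (Fin n) K))
        e i) = ∑ i' ∈ cluster B e i, c i' *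
        ∏ j, (b j + ∑ l, a j l * (x l : K)) ^ (e i' j - low B e i j) := by
    intro x
    simp only [reduced, map_sum, map_mul, map_prod, map_pow, eval_C, aff, map_add, eval_X]
  constructor
  · intro h x _
    rw [← heval, h, map_zero]
  · intro h
    by_contra hne
    let e' : Fin t → Fin m → ℕ := fun i' j =>
      if i' ∈ cluster B e i then e i' j - low B e i j else e i j - low B e i j
    let c' : Fin t → K := fun i' => if i' ∈ cluster B e i then c i' else 0
    have hred : reduced B (fun j => aff (a j) (b j))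
        (fun i : Fin t => (C (c i) : MvPolynomial (Fin n) K)) e i =
        ∑ i', C (c' i') * ∏ j, aff (a j) (b j) ^ e' i' j := by
      rw [reduced, ← Finset.sum_filter_add_sum_filter_not Finset.univ
        (fun i' => i' ∈ cluster B e i)]
      have h2 : ∑ i' ∈ Finset.univ.filter (fun i' => ¬ i' ∈ cluster B e i),
          C (c' i') * ∏ j, aff (a j) (b j) ^ e' i' j = 0 := by
        refine Finset.sum_eq_zero fun i' hi' => ?_
        simp only [c', if_neg (Finset.mem_filter.1 hi').2, C_0, zero_mul]
      rw [h2, add_zero]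
      rw [Finset.filter_mem_eq_inter, Finset.univ_inter]
      refine Finset.sum_congr rfl fun i' hi' => ?_
      simp only [c', e', if_pos hi']
    have hr' : affRank e' ≤ r := by
      refine le_trans ?_ hr
      refine Submodule.finrank_mono (Submodule.span_le.2 ?_)
      rintro _ ⟨⟨x, y⟩, rfl⟩
      have hcl : ∀ x : Fin t, ∃ x' ∈ cluster B e i, ∀ j, (e' x j : ℚ) = e x' j - low B e i j := by
        intro x
        by_cases hx : x ∈ cluster B e i
        · refine ⟨x, hx, fun j => ?_⟩
          simp only [e', if_pos hx]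
          rw [Nat.cast_sub (low_le B e i x hx j)]
        · refine ⟨i, mem_cluster_self B e i, fun j => ?_⟩
          simp only [e', if_neg hx]
          rw [Nat.cast_sub (low_le B e i i (mem_cluster_self B e i) j)]
      obtain ⟨x', _, hx'⟩ := hcl x
      obtain ⟨y', _, hy'⟩ := hcl y
      refine Submodule.subset_span ⟨(x', y'), ?_⟩
      funext j
      simp only
      rw [hx', hy']
      ring
    have hdeg : (∑ i', C (c' i') * ∏ j, aff (a j) (b j) ^ e' i' j).totalDegree ≤ M := by
      rw [← hred]
      refine (totalDegree_reduced_le B _ _ e i).trans ?_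
      simp only [totalDegree_C, Finset.sum_const_zero, zero_add]
      rw [Finset.sum_congr rfl fun j _ => totalDegree_aff (a j) (b j) (ha j)]
      simp [M]
    rw [hred] at hne
    obtain ⟨x, hx, hx'⟩ := hit_degree a b c' e' hr' M hdeg hne
    apply hx'
    rw [← hred, heval]
    exact h x hx

end Pool.Agent.V8H75.Acit
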